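import Mathlib

/-! Block DMX-TOW: a Noether normalisation inside `ℂ` with a Galois extension.
Let `B₀ = Algebra.adjoin ℚ A₀ ⊆ ℂ`, a finitely generated domain over `ℚ`.  Noether normalisation gives `r` and an
injective integral `ℚ`-homomorphism `MvPolynomial (Fin r) ℚ → B₀`.  So `P = MvPolynomial (Fin r) ℤ` embeds in `ℂ`, and its
fraction field `E` too.  `F` is the splitting field in `ℂ` of the product of the minimal polynomials over `E` of the
elements of `A₀`. -/

set_option autoImplicit false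

namespace Pool.Agent.Helper26.DMX

open MvPolynomial

namespace TOW

attribute [local instance] MvPolynomial.algebraMvPolynomial

/-- Noether normalisation inside `ℂ`, with integral multiples over `ℤ[t]`. -/
theorem noether (A₀ : Finset ℂ) :
    ∃ (r : ℕ) (i : MvPolynomial (Fin r) ℤ →+* ℂ), Function.Injective i ∧
      ∀ z ∈ A₀, ∃ n : ℤ, n ≠ 0 ∧ ∃ q : Polynomial (MvPolynomial (Fin r) ℤ), q.Monic ∧
        q.eval₂ i ((n : ℂ) * z) = 0 := by
  classical
  set B₀ : Subalgebra ℚ ℂ := Algebra.adjoin ℚ (A₀ : Set ℂ) with hB₀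
  have hft : Algebra.FiniteType ℚ B₀ := by
    rw [← Subalgebra.fg_iff_finiteType]
    exact Subalgebra.fg_adjoin_finset A₀
  obtain ⟨r, g, hginj, hgint⟩ := exists_integral_inj_algHom_of_fg ℚ B₀
  set gC : MvPolynomial (Fin r) ℚ →ₐ[ℚ] ℂ := B₀.val.comp g with hgC
  have hgCinj : Function.Injective gC := Subtype.val_injective.comp hginj
  set i : MvPolynomial (Fin r) ℤ →+* ℂ :=
    (gC : MvPolynomial (Fin r) ℚ →+* ℂ).comp (MvPolynomial.map (Int.castRingHom ℚ)) with hi
  have hiinj : Function.Injective i := by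
    have h1 : Function.Injective (MvPolynomial.map (σ := Fin r) (Int.castRingHom ℚ)) :=
      MvPolynomial.map_injective _ (RingHom.injective_int _)
    exact hgCinj.comp h1
  refine ⟨r, i, hiinj, fun z hz => ?_⟩
  -- `z` is integral over `ℚ[t]`
  have hz0 : (g : MvPolynomial (Fin r) ℚ →+* B₀).IsIntegralElem
      ⟨z, Algebra.subset_adjoin hz⟩ := hgint _
  obtain ⟨q₀, hq₀, hq₀'⟩ := hz0
  have hz1 : q₀.eval₂ (gC : MvPolynomial (Fin r) ℚ →+* ℂ) z = 0 := by
    have h := congrArg (B₀.val : B₀ →+* ℂ) hq₀'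
    rw [Polynomial.hom_eval₂, map_zero] at h
    exact h
  letI a1 : Algebra (MvPolynomial (Fin r) ℚ) ℂ := (gC : MvPolynomial (Fin r) ℚ →+* ℂ).toAlgebra
  letI a2 : Algebra (MvPolynomial (Fin r) ℤ) ℂ := i.toAlgebra
  haveI : IsScalarTower (MvPolynomial (Fin r) ℤ) (MvPolynomial (Fin r) ℚ) ℂ :=
    IsScalarTower.of_algebraMap_eq fun x => rfl
  have hz2 : IsIntegral (MvPolynomial (Fin r) ℚ) z := ⟨q₀, hq₀, hz1⟩
  obtain ⟨⟨m, hm⟩, hmz⟩ := IsIntegral.exists_multiple_integral_of_isLocalization
    (R := MvPolynomial (Fin r) ℤ) (Rₘ := MvPolynomial (Fin r) ℚ)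
    ((nonZeroDivisors ℤ).map (C (σ := Fin r))) z hz2
  obtain ⟨n, hn, rfl⟩ := Submonoid.mem_map.mp hm
  refine ⟨n, nonZeroDivisors.ne_zero hn, ?_⟩
  obtain ⟨q, hq, hq'⟩ := hmz
  refine ⟨q, hq, ?_⟩
  have h1 : ((⟨C n, hm⟩ : ((nonZeroDivisors ℤ).map (C (σ := Fin r)))) • z : ℂ) = (n : ℂ) * z := by
    rw [Submonoid.smul_def, Algebra.smul_def]
    congr 1
    change i (C n) = n
    have : (C n : MvPolynomial (Fin r) ℤ) = (n : MvPolynomial (Fin r) ℤ) := by
      simp
    rw [this, map_intCast]
  rw [h1] at hq'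
  exact hq'

end TOW

theorem exists_tower (A₀ : Finset ℂ) :
    ∃ (r : ℕ) (F : Type) (_ : Field F) (_ : CharZero F) (_ : Algebra (MvPolynomial (Fin r) ℤ) F)
      (_ : Algebra (FractionRing (MvPolynomial (Fin r) ℤ)) F)
      (_ : IsScalarTower (MvPolynomial (Fin r) ℤ) (FractionRing (MvPolynomial (Fin r) ℤ)) F)
      (_ : FiniteDimensional (FractionRing (MvPolynomial (Fin r) ℤ)) F)
      (_ : IsGalois (FractionRing (MvPolynomial (Fin r) ℤ)) F) (j : F →+* ℂ),
      ∀ z ∈ A₀, ∃ w : F, j w = z ∧ ∃ n : ℤ, n ≠ 0 ∧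
        IsIntegral (MvPolynomial (Fin r) ℤ) ((n : F) * w) := by
  classical
  obtain ⟨r, i, hiinj, hA⟩ := TOW.noether A₀
  set P := MvPolynomial (Fin r) ℤ with hP
  letI aE : Algebra (FractionRing P) ℂ := (IsFractionRing.lift hiinj).toAlgebra
  have hcomp : (algebraMap (FractionRing P) ℂ).comp (algebraMap P (FractionRing P)) = i := by
    ext x
    · simp
    · exact IsFractionRing.lift_algebraMap hiinj _
  -- integrality over `E`
  have hint : ∀ z ∈ A₀, IsIntegral (FractionRing P) z := by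
    intro z hz
    obtain ⟨n, hn, q, hq, hq'⟩ := hA z hz
    have h1 : IsIntegral (FractionRing P) ((n : ℂ) * z) := by
      refine ⟨q.map (algebraMap P (FractionRing P)), hq.map _, ?_⟩
      rw [Polynomial.eval₂_map, hcomp]
      exact hq'
    have hnC : (n : ℂ) ≠ 0 := by exact_mod_cast hn
    have h2 : z = algebraMap (FractionRing P) ℂ ((n : FractionRing P)⁻¹) * ((n : ℂ) * z) := by
      rw [map_inv₀, map_intCast]
      field_simp
    rw [h2]
    exact isIntegral_algebraMap.mul h1
  set p : Polynomial (FractionRing P) := ∏ z ∈ A₀, minpoly (FractionRing P) z with hp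
  have hp0 : p ≠ 0 := Finset.prod_ne_zero_iff.mpr fun z hz => minpoly.ne_zero (hint z hz)
  set F : IntermediateField (FractionRing P) ℂ :=
    IntermediateField.adjoin (FractionRing P) (p.rootSet ℂ) with hF
  haveI hsplit : p.IsSplittingField (FractionRing P) F :=
    IntermediateField.adjoin_rootSet_isSplittingField (IsAlgClosed.splits _)
  haveI hfin : FiniteDimensional (FractionRing P) F :=
    Polynomial.IsSplittingField.finiteDimensional F p
  haveI hch : CharZero (FractionRing P) :=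
    charZero_of_injective_algebraMap (algebraMap (FractionRing P) ℂ).injective |> fun h => by
      exact ⟨fun a b hab => by
        have := congrArg (algebraMap (FractionRing P) ℂ) hab
        rw [map_natCast, map_natCast] at this
        exact_mod_cast this⟩
  haveI hnorm : Normal (FractionRing P) F := Normal.of_isSplittingField p
  haveI hgal : IsGalois (FractionRing P) F := ⟨⟩
  letI aP : Algebra P F :=
    ((algebraMap (FractionRing P) F).comp (algebraMap P (FractionRing P))).toAlgebra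
  refine ⟨r, F, inferInstance, inferInstance, aP, inferInstance,
    IsScalarTower.of_algebraMap_eq fun x => rfl, hfin, hgal, F.val.toRingHom, fun z hz => ?_⟩
  have hzF : z ∈ F := by
    refine IntermediateField.subset_adjoin _ _ ?_
    rw [Polynomial.mem_rootSet]
    refine ⟨hp0, ?_⟩
    rw [hp, map_prod]
    exact Finset.prod_eq_zero hz (minpoly.aeval _ _)
  refine ⟨⟨z, hzF⟩, rfl, ?_⟩
  obtain ⟨n, hn, q, hq, hq'⟩ := hA z hz
  refine ⟨n, hn, q, hq, ?_⟩
  have hinj : Function.Injective (F.val.toRingHom) := F.val.toRingHom.injective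
  apply hinj
  rw [Polynomial.hom_eval₂, map_zero, map_mul, map_intCast]
  have h3 : (F.val.toRingHom).comp (algebraMap P F) = i := by
    rw [← hcomp]
    rfl
  rw [h3]
  exact hq'

end Pool.Agent.Helper26.DMX
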