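import Pool.Agent.Helper26.DMC.FI

/-! Block DMX-BC (about 150 lines): base change of the hypotheses along a homomorphism of fields.
`iterate_map`, `jac_map`: as `map_pmap_iterate`, `map_jac` in DMC/FI.lean (there for `K → ℂ`).
`dense_map`: let `P ≠ 0` over `L` vanish on the orbit; `L` is a `K`-vector space by `τ`, choose a `K`-linear functional `f : L → K` which is nonzero on a coefficient of `P`; the polynomial
`∑_d f(P.coeff d) X^d` over `K` is nonzero and vanishes on the orbit of `β` (see `exists_descent` in DMC/FI.lean for the computation).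
`contr_map`: `iter` commutes with `map τ`.
`CC.map`: let `g'` be irreducible over `L` and divide `map τ (jac Φ)`; `jac Φ` is a product of irreducible factors (up to a unit), `g'` is prime, so `g'` divides `map τ g` for an irreducible factor `g` of `jac Φ`,
and `map τ g` divides `iter (map τ Φ) m i - C (τ (β i))`. -/

set_option autoImplicit false

namespace Pool.Agent.Helper26.DMX

open MvPolynomial Pool.Agent.Helper26.DMC

variable {K L : Type*} [Field K] [Field L] {N : ℕ}

/-- all components of the critical locus are contracted to points with dense orbits -/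
def CC (Φ : Fin N → MvPolynomial (Fin N) K) : Prop :=
  jac Φ ≠ 0 ∧ ∀ g, Irreducible g → g ∣ jac Φ → ∃ m β, 0 < m ∧ Contr Φ g m β ∧ Dense Φ β

theorem iterate_map (τ : K →+* L) (Φ : Fin N → MvPolynomial (Fin N) K) (α : Fin N → K) (n : ℕ) :
    (fun i => τ ((pmap Φ)^[n] α i)) = (pmap fun i => map τ (Φ i))^[n] (fun i => τ (α i)) := by
  induction n with
  | zero => rfl
  | succ n ih =>
    rw [Function.iterate_succ_apply', Function.iterate_succ_apply', ← ih]
    funext i
    simp only [pmap]
    rw [eval_map]
    have := MvPolynomial.eval₂_comp_left τ (RingHom.id K) ((pmap Φ)^[n] α) (Φ i)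
    rw [eval₂_id, RingHom.comp_id] at this
    rw [this]
    rfl

theorem iter_map (τ : K →+* L) (Φ : Fin N → MvPolynomial (Fin N) K) (m : ℕ) (i : Fin N) :
    iter (fun i => map τ (Φ i)) m i = map τ (iter Φ m i) := by
  induction m generalizing i with
  | zero => simp [iter]
  | succ m ih =>
    simp only [iter]
    rw [map_bind₁]
    congr 2
    funext j
    exact ih j

theorem jac_map (τ : K →+* L) (Φ : Fin N → MvPolynomial (Fin N) K) :
    jac (fun i => map τ (Φ i)) = map τ (jac Φ) := by
  unfold jac
  rw [RingHom.map_det]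
  congr 1
  ext i j : 2
  simp [pderiv_map]

theorem dense_map (τ : K →+* L) {Φ : Fin N → MvPolynomial (Fin N) K} {β : Fin N → K}
    (h : Dense Φ β) : Dense (fun i => map τ (Φ i)) (fun i => τ (β i)) := by
  classical
  intro P hP
  let _ : Algebra K L := τ.toAlgebra
  obtain ⟨d, hd⟩ : ∃ d, coeff d P ≠ 0 := MvPolynomial.ne_zero_iff.mp hP
  obtain ⟨f, hf⟩ : ∃ f : Module.Dual K L, f (coeff d P) ≠ 0 := by
    by_contra hcon
    push Not at hcon
    exact hd ((Module.forall_dual_apply_eq_zero_iff K _).mp hcon)
  set Q : MvPolynomial (Fin N) K := ∑ d ∈ P.support, monomial d (f (P.coeff d)) with hQ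
  have hQ0 : Q ≠ 0 := by
    intro h0
    have h1 : coeff d Q = f (coeff d P) := by
      rw [hQ, coeff_sum]
      simp only [coeff_monomial]
      rw [Finset.sum_ite_eq']
      rw [if_pos (MvPolynomial.mem_support_iff.mpr hd)]
    rw [h0, coeff_zero] at h1
    exact hf h1.symm
  have hev : ∀ x : Fin N → K, f (eval (fun i => τ (x i)) P) = eval x Q := by
    intro x
    rw [hQ]
    simp only [map_sum, eval_monomial]
    conv_lhs => rw [eval_eq]
    rw [map_sum]
    apply Finset.sum_congr rfl
    intro d _
    have h1 : (∏ i ∈ d.support, τ (x i) ^ d i) = τ (d.prod fun i k => x i ^ k) := by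
      rw [Finsupp.prod, map_prod]
      simp only [map_pow]
    rw [h1]
    have h2 : coeff d P * τ (d.prod fun i k => x i ^ k) =
        (d.prod fun i k => x i ^ k) • coeff d P := by
      rw [Algebra.smul_def, mul_comm]; rfl
    rw [h2, map_smul, smul_eq_mul, mul_comm]
  obtain ⟨n, hn⟩ := h Q hQ0
  refine ⟨n, fun h0 => hn ?_⟩
  rw [← hev, iterate_map, h0, map_zero]

theorem contr_map (τ : K →+* L) {Φ : Fin N → MvPolynomial (Fin N) K}
    {h : MvPolynomial (Fin N) K} {m : ℕ} {β : Fin N → K} (hc : Contr Φ h m β) :
    Contr (fun i => map τ (Φ i)) (map τ h) m (fun i => τ (β i)) := by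
  intro i
  have h1 : iter (fun i => map τ (Φ i)) m i - C (τ (β i)) = map τ (iter Φ m i - C (β i)) := by
    rw [iter_map, map_sub, map_C]
  rw [h1]
  exact map_dvd _ (hc i)

theorem CC.map (τ : K →+* L) {Φ : Fin N → MvPolynomial (Fin N) K} (h : CC Φ) :
    CC (fun i => MvPolynomial.map τ (Φ i)) := by
  obtain ⟨hJ, hall⟩ := h
  refine ⟨?_, ?_⟩
  · rw [jac_map]
    intro h0
    exact hJ (MvPolynomial.map_injective τ τ.injective (by rw [h0, map_zero]))
  · intro g' hg' hdvd
    rw [jac_map] at hdvd
    have hprime : Prime g' := UniqueFactorizationMonoid.irreducible_iff_prime.mp hg'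
    have h1 : Associated (UniqueFactorizationMonoid.factors (jac Φ)).prod (jac Φ) :=
      UniqueFactorizationMonoid.factors_prod hJ
    have h2 : g' ∣ MvPolynomial.map τ (UniqueFactorizationMonoid.factors (jac Φ)).prod :=
      hdvd.trans (map_dvd (MvPolynomial.map τ) h1.symm.dvd)
    rw [map_multiset_prod] at h2
    obtain ⟨g, hg, hg'g⟩ := hprime.exists_mem_multiset_map_dvd h2
    obtain ⟨m, β, hm, hc, hβ⟩ := hall g (UniqueFactorizationMonoid.irreducible_of_factor g hg)
      (UniqueFactorizationMonoid.dvd_of_mem_factors hg)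
    exact ⟨m, fun i => τ (β i), hm, fun i => hg'g.trans (contr_map τ hc i), dense_map τ hβ⟩

end Pool.Agent.Helper26.DMX
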