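import Mathlib

/-! Block DMX-CONJ: the Galois group acts transitively on the primes over a given prime.
(helper33; statement by helper26) -/

set_option autoImplicit false

namespace Pool.Agent.Helper26.DMX

open scoped Pointwise

theorem exists_conj {P F E : Type*} [CommRing P] [IsDomain P] [IsIntegrallyClosed P] [Field F]
    [Algebra P F] [Field E] [Algebra P E] [IsFractionRing P E] [Algebra E F] [IsScalarTower P E F]
    [FiniteDimensional E F] [IsGalois E F]
    (M M₁ : Ideal (integralClosure P F)) [M.IsPrime] [M₁.IsPrime]
    (h : M.comap (algebraMap P (integralClosure P F)) =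
      M₁.comap (algebraMap P (integralClosure P F))) :
    ∃ g : F ≃ₐ[E] F, ∀ b b' : integralClosure P F, (b' : F) = g b → (b' ∈ M₁ ↔ b ∈ M) := by
  classical
  haveI : IsFractionRing (integralClosure P F) F :=
    integralClosure.isFractionRing_of_finite_extension E F
  letI := IsIntegralClosure.MulSemiringAction P E F (integralClosure P F)
  haveI : Algebra.IsInvariant P (integralClosure P F) Gal(F/E) :=
    Algebra.isInvariant_of_isGalois P E F (integralClosure P F)
  haveI : SMulCommClass Gal(F/E) P (integralClosure P F) := by
    refine ⟨fun g a b => ?_⟩
    change galRestrict P E F (integralClosure P F) g (a • b) =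
      a • galRestrict P E F (integralClosure P F) g b
    exact map_smul _ _ _
  obtain ⟨g, hg⟩ := Algebra.IsInvariant.exists_smul_of_under_eq P (integralClosure P F)
    Gal(F/E) M M₁ h
  refine ⟨g, fun b b' hb => ?_⟩
  have h1 : b' = g • b := by
    apply Subtype.ext
    rw [hb]
    change g (algebraMap (integralClosure P F) F b) =
      algebraMap (integralClosure P F) F (galRestrict P E F (integralClosure P F) g b)
    rw [algebraMap_galRestrict_apply]
  rw [hg, h1, Ideal.smul_mem_pointwise_smul_iff]

end Pool.Agent.Helper26.DMX
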