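import Pool.Agent.Helper26.DMC.ET

/-! Block DMX-EE: the etale theorem with a given embedding.
(helper33, adapted from `Pool.Agent.Helper26.DMC.etale` of helper34; statement by helper26) -/

set_option autoImplicit false

namespace Pool.Agent.Helper26.DMX

open MvPolynomial Pool.Agent.Helper26.DMC

theorem inv_mem_of_integral {A K : Type*} [CommRing A] [Field K] [Algebra A K]
    (O : Subalgebra A K) {v : K} (hv : v ∈ O) (hv0 : v ≠ 0) (h : IsIntegral A v⁻¹) :
    v⁻¹ ∈ O := by
  obtain ⟨q, hq, hqv⟩ := h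
  rw [Polynomial.eval₂_eq_sum_range, Finset.sum_range_succ] at hqv
  have hlead : q.coeff q.natDegree = 1 := hq
  rw [hlead, map_one, one_mul] at hqv
  rcases Nat.eq_zero_or_pos q.natDegree with h0 | hpos
  · rw [h0] at hqv
    simp at hqv
  obtain ⟨k, hk⟩ : ∃ k, q.natDegree = k + 1 := ⟨q.natDegree - 1, by omega⟩
  rw [hk] at hqv
  have h1 : v⁻¹ = -∑ i ∈ Finset.range (k + 1), algebraMap A K (q.coeff i) * v ^ (k - i) := by
    have h2 : v⁻¹ = v⁻¹ ^ (k + 1) * v ^ k := by
      rw [pow_succ, mul_comm (v⁻¹ ^ k), mul_assoc, ← mul_pow, inv_mul_cancel₀ hv0, one_pow,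
        mul_one]
    have h3 : v⁻¹ ^ (k + 1) = -∑ i ∈ Finset.range (k + 1), algebraMap A K (q.coeff i) * v⁻¹ ^ i := by
      rw [eq_neg_iff_add_eq_zero, add_comm]
      exact hqv
    rw [h2, h3, neg_mul, Finset.sum_mul]
    congr 1
    apply Finset.sum_congr rfl
    intro i hi
    have hi' : i ≤ k := Nat.lt_succ_iff.mp (Finset.mem_range.mp hi)
    obtain ⟨j, rfl⟩ := Nat.exists_eq_add_of_le hi'
    rw [Nat.add_sub_cancel_left, pow_add, mul_assoc, ← mul_assoc (v⁻¹ ^ i), ← mul_pow,
      inv_mul_cancel₀ hv0, one_pow, one_mul]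
  rw [h1]
  apply neg_mem
  apply sum_mem
  intro i _
  exact mul_mem (O.algebraMap_mem _) (pow_mem hv _)

open Pool.Agent.Helper87.DMLP (evalMap FinOrAll complex_zero_iff) in
theorem etale_emb {N : ℕ} (Φ : Fin N → MvPolynomial (Fin N) ℂ) (α : Fin N → ℂ) (A₀ : Finset ℂ)
    (hΦ : ∀ i d, (Φ i).coeff d ∈ Subring.closure (A₀ : Set ℂ))
    (hα : ∀ i, α i ∈ Subring.closure (A₀ : Set ℂ))
    (p : ℕ) [Fact p.Prime] (hp3 : 3 ≤ p) (B : Subring ℂ) (hB : ∀ z ∈ A₀, z ∈ B)
    (σ : B →+* AlgebraicClosure ℚ_[p]) (hσ : Function.Injective σ)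
    (hint : ∀ z : B, (z : ℂ) ∈ A₀ → IsIntegral ℤ_[p] (σ z))
    (hJ : ∀ n, ∀ u : B, (u : ℂ) = eval ((pmap Φ)^[n] α) (jac Φ) →
      u ≠ 0 ∧ IsIntegral ℤ_[p] (σ u)⁻¹) :
    ∃ L : ℕ, 0 < L ∧ ∀ V : Set (MvPolynomial (Fin N) ℂ), ∃ E A : Finset ℕ,
      {n | ∀ F ∈ V, eval ((pmap Φ)^[n] α) F = 0} =
        {n : ℕ | n ∈ E ∨ ∃ a ∈ A, ∃ k : ℕ, n = a + L * k} := by
  classical
  -- the ring of definition
  let R : Subring ℂ := Subring.closure (A₀ : Set ℂ)
  have hRB : R ≤ B := Subring.closure_le.mpr hB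
  let τ : R →+* AlgebraicClosure ℚ_[p] := σ.comp (Subring.inclusion hRB)
  have hτinj : Function.Injective τ := hσ.comp (Subring.inclusion_injective hRB)
  let gen : Set (AlgebraicClosure ℚ_[p]) :=
    Set.range fun z : A₀ => σ ⟨(z : ℂ), hB z.1 z.2⟩
  let O : Subalgebra ℤ_[p] (AlgebraicClosure ℚ_[p]) := Algebra.adjoin ℤ_[p] gen
  have hfin : Module.Finite ℤ_[p] O := by
    have h1 : (Subalgebra.toSubmodule O).FG := by
      apply fg_adjoin_of_finite (Set.finite_range _)
      rintro _ ⟨z, rfl⟩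
      exact hint _ z.2
    exact Module.Finite.iff_fg.mpr h1
  have hinj3 : Function.Injective (algebraMap ℤ_[p] (AlgebraicClosure ℚ_[p])) := by
    rw [IsScalarTower.algebraMap_eq ℤ_[p] ℚ_[p] (AlgebraicClosure ℚ_[p])]
    exact (algebraMap ℚ_[p] (AlgebraicClosure ℚ_[p])).injective.comp
      (IsFractionRing.injective ℤ_[p] ℚ_[p])
  have htf : Module.IsTorsionFree ℤ_[p] O := by
    have : FaithfulSMul ℤ_[p] O := by
      rw [faithfulSMul_iff_algebraMap_injective]
      intro a b hab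
      exact hinj3 (congrArg Subtype.val hab)
    infer_instance
  have hfree : Module.Free ℤ_[p] O := inferInstance
  have hmemO : ∀ z : R, τ z ∈ O := by
    rintro ⟨z, hz⟩
    induction hz using Subring.closure_induction with
    | mem x hx =>
      exact Algebra.subset_adjoin ⟨⟨x, hx⟩, rfl⟩
    | zero =>
      have : (⟨0, Subring.zero_mem _⟩ : R) = 0 := rfl
      rw [this, map_zero]
      exact zero_mem O
    | one =>
      have : (⟨1, Subring.one_mem _⟩ : R) = 1 := rfl
      rw [this, map_one]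
      exact one_mem O
    | add x y hx hy ihx ihy =>
      have : (⟨x + y, Subring.add_mem _ hx hy⟩ : R) = ⟨x, hx⟩ + ⟨y, hy⟩ := rfl
      rw [this, map_add]
      exact add_mem ihx ihy
    | neg x hx ihx =>
      have : (⟨-x, Subring.neg_mem _ hx⟩ : R) = -⟨x, hx⟩ := rfl
      rw [this, map_neg]
      exact neg_mem ihx
    | mul x y hx hy ihx ihy =>
      have : (⟨x * y, Subring.mul_mem _ hx hy⟩ : R) = ⟨x, hx⟩ * ⟨y, hy⟩ := rfl
      rw [this, map_mul]
      exact mul_mem ihx ihy
  let ι : R →+* O := τ.codRestrict O.toSubring hmemO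
  have hιv : ∀ z : R, ((ι z : O) : AlgebraicClosure ℚ_[p]) = τ z := fun z => rfl
  have hι : Function.Injective ι := by
    intro a b hab
    exact hτinj (congrArg Subtype.val hab)
  have hliftΦ : ∀ i, ∃ F' : MvPolynomial (Fin N) R, map R.subtype F' = Φ i := by
    intro i
    have : Φ i ∈ Set.range (MvPolynomial.map (σ := Fin N) R.subtype) := by
      rw [mem_range_map_iff_coeffs_subset]
      intro z hz
      rw [SetLike.mem_coe, mem_coeffs_iff] at hz
      obtain ⟨d, _, rfl⟩ := hz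
      exact ⟨⟨_, hΦ i d⟩, rfl⟩
    exact this
  choose Φ' hΦ' using hliftΦ
  let α' : Fin N → R := fun i => ⟨α i, hα i⟩
  -- the orbits
  have horb : ∀ n, (pmap Φ)^[n] α = fun i => (((evalMap Φ')^[n] α' i : R) : ℂ) := by
    intro n
    induction n with
    | zero => rfl
    | succ n ih =>
      rw [Function.iterate_succ_apply', Function.iterate_succ_apply', ih]
      funext i
      show eval _ (Φ i) = R.subtype (eval _ (Φ' i))
      rw [ET.map_eval', hΦ']
      rfl
  have horb' : ∀ n, (evalMap (fun i => map ι (Φ' i)))^[n] (fun i => ι (α' i)) =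
      fun i => ι ((evalMap Φ')^[n] α' i) := by
    intro n
    induction n with
    | zero => rfl
    | succ n ih =>
      rw [Function.iterate_succ_apply', Function.iterate_succ_apply', ih]
      funext i
      show eval _ (map ι (Φ' i)) = ι (eval _ (Φ' i))
      rw [ET.map_eval']
      rfl
  -- the Jacobian
  have hjac : jac Φ = map R.subtype (Matrix.of fun i j => pderiv j (Φ' i)).det := by
    rw [jac, RingHom.map_det]
    congr 1
    ext i j : 2
    rw [Matrix.of_apply, RingHom.mapMatrix_apply, Matrix.map_apply, Matrix.of_apply, ← hΦ' i,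
      pderiv_map]
  have hjac' : (Matrix.of fun i j => pderiv j (map ι (Φ' i))).det =
      map ι (Matrix.of fun i j => pderiv j (Φ' i)).det := by
    rw [RingHom.map_det]
    congr 1
    ext i j : 2
    rw [Matrix.of_apply, RingHom.mapMatrix_apply, Matrix.map_apply, Matrix.of_apply, pderiv_map]
  have hev : ∀ (n : ℕ) (P : MvPolynomial (Fin N) R),
      eval (fun i => (((evalMap Φ')^[n] α' i : R) : ℂ)) (map R.subtype P) =
        ((eval ((evalMap Φ')^[n] α') P : R) : ℂ) := by
    intro n P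
    have := ET.map_eval' R.subtype ((evalMap Φ')^[n] α') P
    exact this.symm
  have hev' : ∀ (n : ℕ) (P : MvPolynomial (Fin N) R),
      eval (fun i => ι ((evalMap Φ')^[n] α' i)) (map ι P) =
        ι (eval ((evalMap Φ')^[n] α') P) := by
    intro n P
    have := ET.map_eval' ι ((evalMap Φ')^[n] α') P
    exact this.symm
  have hunit : ∀ n, IsUnit (eval ((evalMap (fun i => map ι (Φ' i)))^[n] (fun i => ι (α' i)))
      (Matrix.of fun i j => pderiv j (map ι (Φ' i))).det) := by
    intro n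
    rw [horb', hjac', hev']
    set w : R := eval ((evalMap Φ')^[n] α') (Matrix.of fun i j => pderiv j (Φ' i)).det with hw
    obtain ⟨h1, h2⟩ := hJ n (Subring.inclusion hRB w) (by
      rw [horb, hjac, hev]
      rfl)
    have hτw : τ w ≠ 0 := by
      intro h0
      apply h1
      apply hσ
      rw [map_zero]
      exact h0
    have h3 : (τ w)⁻¹ ∈ O := inv_mem_of_integral O (hmemO w) hτw h2
    refine IsUnit.of_mul_eq_one (⟨(τ w)⁻¹, h3⟩ : O) ?_
    apply Subtype.ext
    show τ w * (τ w)⁻¹ = 1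
    exact mul_inv_cancel₀ hτw
  obtain ⟨n₀, L, hL, hmain⟩ := ET.orbit hp3 (fun i => map ι (Φ' i)) (fun i => ι (α' i)) hunit
  refine ⟨L, hL, fun V => ?_⟩
  apply FinOrAll.explicit hL
  have h1 : {n | ∀ F ∈ V, eval ((pmap Φ)^[n] α) F = 0} =
      ⋂ F : V, {n | eval ((pmap Φ)^[n] α) F.1 = 0} := by
    ext n
    simp
  rw [h1]
  apply FinOrAll.inter
  intro F
  obtain ⟨κ, H, hH⟩ := complex_zero_iff R F.1
  have h2 : {n | eval ((pmap Φ)^[n] α) F.1 = 0} =
      ⋂ j, {n | eval ((evalMap (fun i => map ι (Φ' i)))^[n] (fun i => ι (α' i))) (map ι (H j)) = 0} := by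
    ext n
    simp only [Set.mem_ofPred_eq, Set.mem_iInter]
    rw [horb, hH]
    apply forall_congr'
    intro j
    rw [horb', hev']
    constructor
    · intro h; rw [h, map_zero]
    · intro h; exact hι (by rw [h, map_zero])
  rw [h2]
  apply FinOrAll.inter
  intro j
  exact hmain (map ι (H j))

end Pool.Agent.Helper26.DMX
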