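import Pool.Agent.Helper86.DML.Embed

/-! Block DMX-EMB (about 100 lines): `p`-adic embeddings near an integral point.
As in `Pool.Agent.Helper86.DML.exists_embedding`: by `exists_big_family` there are `τ_i ∈ p ℤ_p` (`i : Fin r`), algebraically independent over `ℤ`; `y_i = x_i + τ_i` are algebraically
independent (`AlgebraicIndependent.add_int`), so `X_i ↦ y_i` is an injective homomorphism from `P = MvPolynomial (Fin r) ℤ` to `ℤ_p`, and to the closure of `ℚ_p`; `F` is algebraic over `P`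
(finite over the fraction field), so it extends to `F` (`IsAlgClosed.lift`).
The second claim: `f(x + τ) - f(x)` is divisible by `p` in `ℤ_p` (`eval_modEq` in that file). -/

set_option autoImplicit false

namespace Pool.Agent.Helper26.DMX

open MvPolynomial Cardinal

theorem exists_emb {r : ℕ} {F : Type} [Field F] [Algebra (MvPolynomial (Fin r) ℤ) F]
    [Algebra (FractionRing (MvPolynomial (Fin r) ℤ)) F]
    [IsScalarTower (MvPolynomial (Fin r) ℤ) (FractionRing (MvPolynomial (Fin r) ℤ)) F]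
    [FiniteDimensional (FractionRing (MvPolynomial (Fin r) ℤ)) F]
    (x : Fin r → ℤ) (p : ℕ) [Fact p.Prime] :
    ∃ σ : F →+* AlgebraicClosure ℚ_[p], ∀ f : MvPolynomial (Fin r) ℤ, ∃ y : ℤ_[p],
      σ (algebraMap (MvPolynomial (Fin r) ℤ) F f) =
        algebraMap ℤ_[p] (AlgebraicClosure ℚ_[p]) (((eval x f : ℤ) : ℤ_[p]) + (p : ℤ_[p]) * y) := by
  classical
  obtain ⟨s, hs1, hs2, hs3⟩ := Helper86.DML.exists_big_family p
  obtain ⟨e⟩ : Nonempty (Fin r ↪ s) := by
    rw [← Cardinal.lift_mk_le']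
    have h1 : Cardinal.lift.{0} #(Fin r) ≤ 𝔠 := by
      rw [Cardinal.lift_uzero, Cardinal.mk_fin]
      exact (Cardinal.nat_lt_continuum r).le
    exact h1.trans (by rw [Cardinal.lift_uzero]; exact hs3)
  let τ : Fin r → ℤ_[p] := fun i => ⟨(e i : ℚ_[p]), (hs1 _ (e i).2).le⟩
  have hτ : ∀ i, (p : ℤ_[p]) ∣ τ i := by
    intro i
    rw [← Ideal.mem_span_singleton, ← PadicInt.maximalIdeal_eq_span_p,
      IsLocalRing.mem_maximalIdeal, PadicInt.mem_nonunits]
    exact hs1 _ (e i).2
  let y : Fin r → ℤ_[p] := fun i => (x i : ℤ_[p]) + τ i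
  have hτind : AlgebraicIndependent ℤ τ := by
    have h1 : AlgebraicIndependent ℤ (fun i => ((e i : s) : ℚ_[p])) := hs2.comp e e.injective
    have h2 : AlgebraicIndependent ℤ ((PadicInt.Coe.ringHom (p := p)).toIntAlgHom ∘ τ) := h1
    exact AlgebraicIndependent.of_comp _ h2
  have hy : AlgebraicIndependent ℤ y := Helper86.DML.AlgebraicIndependent.add_int hτind x
  -- the closure of `ℚ_p` as an algebra over the polynomial ring
  let i3 : Algebra (MvPolynomial (Fin r) ℤ) (AlgebraicClosure ℚ_[p]) :=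
    ((algebraMap ℤ_[p] (AlgebraicClosure ℚ_[p])).comp (aeval y).toRingHom).toAlgebra
  have hi3 : ∀ f : MvPolynomial (Fin r) ℤ,
      algebraMap (MvPolynomial (Fin r) ℤ) (AlgebraicClosure ℚ_[p]) f
        = algebraMap ℤ_[p] (AlgebraicClosure ℚ_[p]) (aeval y f) := fun f => rfl
  have hinj3 : Function.Injective (algebraMap ℤ_[p] (AlgebraicClosure ℚ_[p])) := by
    rw [IsScalarTower.algebraMap_eq ℤ_[p] ℚ_[p] (AlgebraicClosure ℚ_[p])]
    exact (algebraMap ℚ_[p] (AlgebraicClosure ℚ_[p])).injective.comp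
      (IsFractionRing.injective ℤ_[p] ℚ_[p])
  have hinj4 : Function.Injective
      (algebraMap (MvPolynomial (Fin r) ℤ) (AlgebraicClosure ℚ_[p])) :=
    hinj3.comp (algebraicIndependent_iff_injective_aeval.mp hy)
  have hinj1 : Function.Injective (algebraMap (MvPolynomial (Fin r) ℤ) F) := by
    rw [IsScalarTower.algebraMap_eq (MvPolynomial (Fin r) ℤ)
      (FractionRing (MvPolynomial (Fin r) ℤ)) F]
    exact (algebraMap (FractionRing (MvPolynomial (Fin r) ℤ)) F).injective.comp
      (IsFractionRing.injective _ _)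
  have halg : Algebra.IsAlgebraic (MvPolynomial (Fin r) ℤ) F :=
    (IsFractionRing.comap_isAlgebraic_iff (A := MvPolynomial (Fin r) ℤ)
      (K := FractionRing (MvPolynomial (Fin r) ℤ)) (C := F)).2 inferInstance
  have : FaithfulSMul (MvPolynomial (Fin r) ℤ) F := (faithfulSMul_iff_algebraMap_injective _ _).mpr hinj1
  have : FaithfulSMul (MvPolynomial (Fin r) ℤ) (AlgebraicClosure ℚ_[p]) :=
    (faithfulSMul_iff_algebraMap_injective _ _).mpr hinj4
  have : Module.IsTorsionFree (MvPolynomial (Fin r) ℤ) F := inferInstance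
  have : Module.IsTorsionFree (MvPolynomial (Fin r) ℤ) (AlgebraicClosure ℚ_[p]) := inferInstance
  let σ : F →ₐ[MvPolynomial (Fin r) ℤ] AlgebraicClosure ℚ_[p] := IsAlgClosed.lift
  refine ⟨σ.toRingHom, fun f => ?_⟩
  obtain ⟨z, hz⟩ := Helper86.DML.eval_modEq p f x τ hτ
  refine ⟨z, ?_⟩
  have h1 : σ (algebraMap (MvPolynomial (Fin r) ℤ) F f)
      = algebraMap ℤ_[p] (AlgebraicClosure ℚ_[p]) (aeval y f) := by
    rw [AlgHom.commutes, hi3]
  have h2 : aeval y f = ((eval x f : ℤ) : ℤ_[p]) + (p : ℤ_[p]) * z := by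
    rw [← hz]
    ring
  rw [← h2]
  exact h1

end Pool.Agent.Helper26.DMX
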