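import Mathlib

/-! Block DMX-VAL (about 100 lines): the absolute value on an algebraic closure of `ℚ_p`.
`v = spectralNorm ℚ_[p] (AlgebraicClosure ℚ_[p])` (multiplicative and nonarchimedean since `ℚ_[p]` is complete: `spectralNorm_mul`, `isNonarchimedean_spectralNorm`, ...; extends the norm: `spectralNorm_extends`).
Integrality: if `z` is integral over `ℤ_[p]` it is a root of a monic polynomial with coefficients of norm `≤ 1`, so `v z ≤ 1` by the ultrametric inequality.  Conversely `v z ≤ 1` means that all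
coefficients of the minimal polynomial over `ℚ_[p]` have norm `≤ 1` (definition of `spectralValue` as a supremum of `‖a_i‖^(1/(n-i))`), so it comes from a monic polynomial over `ℤ_[p]`. -/

set_option autoImplicit false

namespace Pool.Agent.Helper26.DMX

open Polynomial in
theorem exists_val (p : ℕ) [Fact p.Prime] :
    ∃ v : AlgebraicClosure ℚ_[p] → ℝ, v 0 = 0 ∧ v 1 = 1 ∧ (∀ x y, v (x * y) = v x * v y) ∧
      (∀ x y, v (x + y) ≤ max (v x) (v y)) ∧ (∀ x, v (-x) = v x) ∧ (∀ x, 0 ≤ v x) ∧
      (∀ x, v x = 0 → x = 0) ∧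
      (∀ x : ℚ_[p], v (algebraMap ℚ_[p] (AlgebraicClosure ℚ_[p]) x) = ‖x‖) ∧
      ∀ z, v z ≤ 1 ↔ IsIntegral ℤ_[p] z := by
  have halg : ∀ x : AlgebraicClosure ℚ_[p], IsAlgebraic ℚ_[p] x :=
    fun x => Algebra.IsAlgebraic.isAlgebraic x
  refine ⟨spectralNorm ℚ_[p] (AlgebraicClosure ℚ_[p]), spectralNorm_zero, spectralNorm_one,
    fun x y => ?_, fun x y => isNonarchimedean_spectralNorm x y, fun x => spectralNorm_neg (halg x),
    fun x => spectralNorm_nonneg x, fun x hx => eq_zero_of_map_spectralNorm_eq_zero hx (halg x),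
    fun x => spectralNorm_extends x, fun z => ?_⟩
  · exact spectralAlgNorm_mul x y
  · have hint : IsIntegral ℚ_[p] z := (halg z).isIntegral
    have hmonic := minpoly.monic hint
    unfold spectralNorm
    rw [spectralValue_le_one_iff hmonic]
    constructor
    · intro h
      have hl : minpoly ℚ_[p] z ∈ Polynomial.lifts (algebraMap ℤ_[p] ℚ_[p]) := by
        rw [Polynomial.lifts_iff_coeff_lifts]
        intro n
        exact ⟨⟨(minpoly ℚ_[p] z).coeff n, h n⟩, rfl⟩
      obtain ⟨q, hq1, hq2, hq3⟩ := Polynomial.lifts_and_natDegree_eq_and_monic hl hmonic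
      refine ⟨q, hq3, ?_⟩
      have h0 := minpoly.aeval ℚ_[p] z
      rw [← hq1, Polynomial.aeval_map_algebraMap] at h0
      exact h0
    · intro h n
      rw [minpoly.isIntegrallyClosed_eq_field_fractions' ℚ_[p] h, Polynomial.coeff_map]
      exact PadicInt.norm_le_one _

end Pool.Agent.Helper26.DMX
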