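import Pool.Agent.Helper26.DMX.SP1
import Pool.Agent.Helper26.DMX.VAL
import Pool.Agent.Helper26.DMX.EMB
import Pool.Agent.Helper26.DMX.CONJ

/-! Block DMX-SP2 (about 200 lines): `p`-adic embeddings compatible with a specialisation.
Let `P = MvPolynomial (Fin r) ℤ`, `B₁ = integralClosure P F`.  For `w ∈ A` there is an integer `≠ 0` with `n w ∈ B₁`; every `d ∈ D` is `φ(b_d)` (surjectivity) and has an integer with `n b_d ∈ B₁`; let `n₀ ≠ 0` be the product of all of
these integers.  Choose a prime `p ≥ 3` not dividing `n₀`.  `𝔮 = {b ∈ B₁ : φ(b) = 0}` is a prime of `B₁` with `𝔮 ∩ P = {f : f(x) = 0}` (`L` has characteristic zero), so `B₁ / 𝔮` is an integral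
extension of `ℤ` (embedded in `L`), and there is a prime `M ⊇ 𝔮` of `B₁` with `p ∈ M` (lying over: `Ideal.exists_ideal_over_prime_of_isIntegral` for `(p, t - x)`; or directly: a maximal ideal containing `𝔮` and `p`, it is proper because
`1/p` is not integral over `ℤ`).  Then `M ∩ P = {f : p ∣ f(x)}` (it contains this maximal ideal).
Let `σ₁ : F → closure of ℚ_p` be given by `exists_emb x p`, `v` by `exists_val`; all elements of `σ₁(B₁)` are integral over `ℤ_p`; `M₁ = {b ∈ B₁ : v(σ₁ b) < 1}` is a prime of `B₁` with `M₁ ∩ P = {f : p ∣ f(x)}`.  By `exists_conj` there is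
`g ∈ Gal(F/Frac P)` with `g b ∈ M₁ ↔ b ∈ M`; let `σ = σ₁ ∘ g`.  Integrality of `σ w`, `w ∈ A`: `n₀^k w ∈ B₁` and `n₀` is a unit of `ℤ_p`.
Last claim: `u ∈ closure A`, `w = φ(w')`, `w'` in the subring generated by the `b_d` and `A`; for a suitable `k`: `n₀^k u ∈ B₁`, `n₀^k w' ∈ B₁`, and
`φ(n₀^(2k) (u w' - 1)) = 0`, so `(n₀^k u)(n₀^k w') - n₀^(2k) ∈ 𝔮 ⊆ M`, and `n₀ ∉ M` (`p ∤ n₀`), so `n₀^k u ∉ M`, i.e. `v(σ(n₀^k u)) = 1`, `v(σ u) = 1`, `v((σ u)⁻¹) = 1`, integral. -/

set_option autoImplicit false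

namespace Pool.Agent.Helper26.DMX

open MvPolynomial

variable {r : ℕ} {F : Type} [Field F] [CharZero F] [Algebra (MvPolynomial (Fin r) ℤ) F]
  [Algebra (FractionRing (MvPolynomial (Fin r) ℤ)) F]
  [IsScalarTower (MvPolynomial (Fin r) ℤ) (FractionRing (MvPolynomial (Fin r) ℤ)) F]
  [FiniteDimensional (FractionRing (MvPolynomial (Fin r) ℤ)) F]
  [IsGalois (FractionRing (MvPolynomial (Fin r) ℤ)) F]


/-- If all `P`-values of a ring homomorphism into a `ℤ_p`-algebra come from `ℤ_p`, integral elements go to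
integral elements. -/
private lemma integral_map {P F R K : Type*} [CommRing P] [CommRing F] [Algebra P F] [CommRing R]
    [CommRing K] [Algebra R K] (σ : F →+* K)
    (h : ∀ f : P, ∃ y : R, σ (algebraMap P F f) = algebraMap R K y) {z : F}
    (hz : IsIntegral P z) : IsIntegral R (σ z) := by
  obtain ⟨g, hg, hgz⟩ := hz
  have h1 : (g.map (σ.comp (algebraMap P F))) ∈ Polynomial.lifts (algebraMap R K) := by
    rw [Polynomial.lifts_iff_coeff_lifts]
    intro n
    obtain ⟨y, hy⟩ := h (g.coeff n)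
    exact ⟨y, by rw [Polynomial.coeff_map, RingHom.comp_apply, hy]⟩
  obtain ⟨q, hq, -, hqm⟩ := Polynomial.lifts_and_natDegree_eq_and_monic h1 (hg.map _)
  refine ⟨q, hqm, ?_⟩
  rw [← Polynomial.eval_map, hq, Polynomial.eval_map, ← Polynomial.hom_eval₂, hgz, map_zero]

/-- Closure of a condition on multiples by powers of a fixed integer. -/
private lemma closure_pow {P F : Type*} [CommRing P] [CommRing F] [Algebra P F] (n : ℤ)
    (S : Set F) (hS : ∀ w ∈ S, IsIntegral P ((n : F) * w)) {u : F} (hu : u ∈ Subring.closure S) :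
    ∃ k : ℕ, IsIntegral P ((n : F) ^ k * u) := by
  have hZ : ∀ m : ℤ, IsIntegral P (m : F) := fun m => by
    have := isIntegral_algebraMap (R := P) (A := F) (x := (m : P))
    rwa [map_intCast] at this
  induction hu using Subring.closure_induction with
  | mem x hx => exact ⟨1, by simpa using hS x hx⟩
  | zero => exact ⟨0, by simpa using isIntegral_zero⟩
  | one => exact ⟨0, by simpa using isIntegral_one⟩
  | add x y _ _ hx hy =>
    obtain ⟨k, hk⟩ := hx
    obtain ⟨l, hl⟩ := hy
    refine ⟨k + l, ?_⟩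
    have := (((hZ n).pow l).mul hk).add (((hZ n).pow k).mul hl)
    rwa [show (n : F) ^ l * ((n : F) ^ k * x) + (n : F) ^ k * ((n : F) ^ l * y) =
      (n : F) ^ (k + l) * (x + y) by ring] at this
  | neg x _ hx =>
    obtain ⟨k, hk⟩ := hx
    exact ⟨k, by rw [mul_neg]; exact hk.neg⟩
  | mul x y _ _ hx hy =>
    obtain ⟨k, hk⟩ := hx
    obtain ⟨l, hl⟩ := hy
    refine ⟨k + l, ?_⟩
    have := hk.mul hl
    rwa [show (n : F) ^ k * x * ((n : F) ^ l * y) = (n : F) ^ (k + l) * (x * y) by ring] at this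

theorem exists_near {L : Type} [Field L] [CharZero L] (x : Fin r → ℤ) (φ : Bint r F →+* L)
    (hsurj : Function.Surjective φ)
    (hφ : ∀ f : MvPolynomial (Fin r) ℤ, φ ⟨algebraMap _ F f, algebraMap_mem_Bint f⟩ =
        ((eval x f : ℤ) : L)) (A : Finset (Bint r F)) (D : Finset L) :
    ∃ (p : ℕ) (_ : Fact p.Prime) (σ : F →+* AlgebraicClosure ℚ_[p]), 3 ≤ p ∧
      (∀ w ∈ A, IsIntegral ℤ_[p] (σ (w : F))) ∧
      ∀ u ∈ Subring.closure (A : Set (Bint r F)),
        ∀ w ∈ Subring.closure ((D : Set L) ∪ φ '' (A : Set (Bint r F))),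
        φ u * w = 1 → IsIntegral ℤ_[p] (σ (u : F))⁻¹ := by
  classical
  haveI : CharZero (MvPolynomial (Fin r) ℤ) := inferInstance
  -- lifts
  choose lift hlift using hsurj
  set S : Finset (Bint r F) := A ∪ D.image lift with hSdef
  -- the common denominator
  have hden : ∃ n₀ : ℤ, n₀ ≠ 0 ∧ ∀ w ∈ S, IsIntegral (MvPolynomial (Fin r) ℤ) ((n₀ : F) * (w : F)) := by
    choose n hn hni using fun w : Bint r F => mem_Bint.1 w.2
    refine ⟨∏ w ∈ S, n w, Finset.prod_ne_zero_iff.2 fun w _ => hn w, fun w hw => ?_⟩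
    have hZ : ∀ m : ℤ, IsIntegral (MvPolynomial (Fin r) ℤ) (m : F) := fun m => by
      have := isIntegral_algebraMap (R := MvPolynomial (Fin r) ℤ) (A := F)
        (x := (m : MvPolynomial (Fin r) ℤ))
      rwa [map_intCast] at this
    rw [← Finset.prod_erase_mul S n hw]
    have := (hZ (∏ w ∈ S.erase w, n w)).mul (hni w)
    push_cast at this ⊢
    rwa [mul_assoc]
  obtain ⟨n₀, hn₀, hint⟩ := hden
  -- the prime
  obtain ⟨p, hp1, hp2⟩ := Nat.exists_infinite_primes (n₀.natAbs + 3)
  haveI hp : Fact p.Prime := ⟨hp2⟩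
  have hp3 : 3 ≤ p := by omega
  have hpn : ¬ (p : ℤ) ∣ n₀ := by
    intro h
    have h1 : p ∣ n₀.natAbs := Int.natCast_dvd.1 h
    have h2 := Nat.le_of_dvd (Int.natAbs_pos.2 hn₀) h1
    omega
  have hpp : Prime (p : ℤ) := Nat.prime_iff_prime_int.1 hp2
  -- the ring `B₁`
  have hB : ∀ b : integralClosure (MvPolynomial (Fin r) ℤ) F, (b : F) ∈ Bint r F := fun b =>
    mem_Bint.2 ⟨1, one_ne_zero, by rw [Int.cast_one, one_mul]; exact b.2⟩
  set ι : integralClosure (MvPolynomial (Fin r) ℤ) F →+* Bint r F :=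
    { toFun := fun b => ⟨b, hB b⟩
      map_one' := rfl
      map_mul' := fun _ _ => rfl
      map_zero' := rfl
      map_add' := fun _ _ => rfl } with hι
  set φ₁ : integralClosure (MvPolynomial (Fin r) ℤ) F →+* L := φ.comp ι with hφ₁
  have hφ₁P : ∀ f : MvPolynomial (Fin r) ℤ,
      φ₁ (algebraMap _ (integralClosure (MvPolynomial (Fin r) ℤ) F) f) = ((eval x f : ℤ) : L) := by
    intro f
    rw [← hφ f]
    rfl
  -- `1/p` is not in the image
  have hint1 : ∀ b, IsIntegral ℤ (φ₁ b) := by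
    intro b
    have hb : IsIntegral (MvPolynomial (Fin r) ℤ) b := by
      have := b.2
      exact integralClosure.isIntegral b
    refine integral_map (P := MvPolynomial (Fin r) ℤ) φ₁ (fun f => ⟨eval x f, ?_⟩) hb
    rw [hφ₁P]
    simp
  have hproper : RingHom.ker φ₁ ⊔ Ideal.span {(p : integralClosure (MvPolynomial (Fin r) ℤ) F)} ≠ ⊤ := by
    intro h
    rw [Ideal.eq_top_iff_one, Submodule.mem_sup] at h
    obtain ⟨q, hq, t, ht, hqt⟩ := h
    obtain ⟨b, rfl⟩ := Ideal.mem_span_singleton'.1 ht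
    have h1 : φ₁ b * (p : L) = 1 := by
      have := congrArg φ₁ hqt
      rw [map_add, RingHom.mem_ker.1 hq, zero_add, map_mul, map_natCast, map_one] at this
      exact this
    have hpL : (p : L) ≠ 0 := by exact_mod_cast hp2.ne_zero
    have h2 : φ₁ b = algebraMap ℚ L ((p : ℚ)⁻¹) := by
      rw [map_inv₀, map_natCast]
      exact eq_inv_of_mul_eq_one_left h1
    have h3 : IsIntegral ℤ ((p : ℚ)⁻¹) := by
      have := hint1 b
      rw [h2] at this
      exact (isIntegral_algHom_iff ((Algebra.ofId ℚ L).restrictScalars ℤ)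
        (algebraMap ℚ L).injective).1 this
    obtain ⟨z, hz⟩ := IsIntegrallyClosed.isIntegral_iff.1 h3
    have hpQ : (p : ℚ) ≠ 0 := by exact_mod_cast hp2.ne_zero
    have h4 : (z : ℚ) * p = 1 := by
      have : ((z : ℤ) : ℚ) = (p : ℚ)⁻¹ := by simpa using hz
      rw [this, inv_mul_cancel₀ hpQ]
    have h5 : z * (p : ℤ) = 1 := by exact_mod_cast h4
    exact hpp.not_isUnit (IsUnit.of_mul_eq_one_right _ h5)
  obtain ⟨M, hM, hle⟩ := Ideal.exists_le_maximal _ hproper
  have hMker : ∀ b, φ₁ b = 0 → b ∈ M := fun b hb =>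
    hle (Ideal.mem_sup_left (RingHom.mem_ker.2 hb))
  have hpM : (p : integralClosure (MvPolynomial (Fin r) ℤ) F) ∈ M :=
    hle (Ideal.mem_sup_right (Ideal.mem_span_singleton_self _))
  haveI := hM.isPrime
  have hMint : ∀ m : ℤ, ((m : ℤ) : integralClosure (MvPolynomial (Fin r) ℤ) F) ∈ M ↔ (p : ℤ) ∣ m := by
    intro m
    constructor
    · intro hm
      by_contra hnd
      have hco : IsCoprime (p : ℤ) m := (hpp.coprime_iff_not_dvd).2 hnd
      obtain ⟨a, b, hab⟩ := hco
      refine hM.ne_top ((Ideal.eq_top_iff_one _).2 ?_)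
      have h1 : (1 : integralClosure (MvPolynomial (Fin r) ℤ) F) = (a : ℤ) * (p : integralClosure (MvPolynomial (Fin r) ℤ) F) + (b : ℤ) * (m : ℤ) := by
        exact_mod_cast congrArg (Int.cast : ℤ → integralClosure (MvPolynomial (Fin r) ℤ) F) hab.symm
      rw [h1]
      exact M.add_mem (M.mul_mem_left _ hpM) (M.mul_mem_left _ hm)
    · rintro ⟨c, rfl⟩
      push_cast
      exact M.mul_mem_right _ hpM
  have hMP : ∀ f : MvPolynomial (Fin r) ℤ,
      algebraMap _ (integralClosure (MvPolynomial (Fin r) ℤ) F) f ∈ M ↔ (p : ℤ) ∣ eval x f := by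
    intro f
    have h1 : algebraMap _ (integralClosure (MvPolynomial (Fin r) ℤ) F) f -
        ((eval x f : ℤ) : integralClosure (MvPolynomial (Fin r) ℤ) F) ∈ M := by
      apply hMker
      rw [map_sub, hφ₁P, map_intCast, sub_self]
    rw [← hMint]
    constructor
    · intro h
      have := M.sub_mem h h1
      rwa [sub_sub_cancel] at this
    · intro h
      have := M.add_mem h1 h
      rwa [sub_add_cancel] at this
  -- the embedding and the absolute value
  obtain ⟨σ₁, hσ₁⟩ := exists_emb (F := F) x p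
  obtain ⟨v, hv0, hv1, hvmul, hvadd, hvneg, hvnn, hveq, hvp, hvint⟩ := exists_val p
  have hσint : ∀ z : F, IsIntegral (MvPolynomial (Fin r) ℤ) z → v (σ₁ z) ≤ 1 := by
    intro z hz
    rw [hvint]
    refine integral_map (P := MvPolynomial (Fin r) ℤ) σ₁ (fun f => ?_) hz
    obtain ⟨y, hy⟩ := hσ₁ f
    exact ⟨_, hy⟩
  have hvZp : ∀ y : ℤ_[p], v (algebraMap ℤ_[p] (AlgebraicClosure ℚ_[p]) y) = ‖y‖ := by
    intro y
    rw [IsScalarTower.algebraMap_apply ℤ_[p] ℚ_[p] (AlgebraicClosure ℚ_[p]), hvp]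
    rfl
  set M₁ : Ideal (integralClosure (MvPolynomial (Fin r) ℤ) F) :=
    { carrier := {b | v (σ₁ (b : F)) < 1}
      add_mem' := by
        intro a b ha hb
        have : v (σ₁ ((a + b : integralClosure (MvPolynomial (Fin r) ℤ) F) : F)) ≤
            max (v (σ₁ (a : F))) (v (σ₁ (b : F))) := by
          rw [show ((a + b : integralClosure (MvPolynomial (Fin r) ℤ) F) : F) = (a : F) + (b : F) from rfl,
            map_add]
          exact hvadd _ _
        exact lt_of_le_of_lt this (max_lt ha hb)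
      zero_mem' := by
        show v (σ₁ (((0 : integralClosure (MvPolynomial (Fin r) ℤ) F)) : F)) < 1
        rw [show (((0 : integralClosure (MvPolynomial (Fin r) ℤ) F)) : F) = 0 from rfl, map_zero, hv0]
        exact one_pos
      smul_mem' := by
        intro c a ha
        show v (σ₁ (((c * a : integralClosure (MvPolynomial (Fin r) ℤ) F)) : F)) < 1
        rw [show (((c * a : integralClosure (MvPolynomial (Fin r) ℤ) F)) : F) = (c : F) * (a : F) from rfl,
          map_mul, hvmul]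
        have h1 : v (σ₁ (c : F)) ≤ 1 := hσint _ c.2
        have h2 : v (σ₁ (a : F)) < 1 := ha
        calc v (σ₁ (c : F)) * v (σ₁ (a : F)) ≤ 1 * v (σ₁ (a : F)) :=
              mul_le_mul_of_nonneg_right h1 (hvnn _)
          _ < 1 := by rw [one_mul]; exact h2 } with hM₁
  have hmem₁ : ∀ b, b ∈ M₁ ↔ v (σ₁ (b : F)) < 1 := fun b => Iff.rfl
  haveI : M₁.IsPrime := by
    rw [Ideal.isPrime_iff]
    constructor
    · intro h
      have h1 : (1 : integralClosure (MvPolynomial (Fin r) ℤ) F) ∈ M₁ := by rw [h]; trivial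
      rw [hmem₁, show ((1 : integralClosure (MvPolynomial (Fin r) ℤ) F) : F) = 1 from rfl, map_one, hv1] at h1
      exact lt_irrefl _ h1
    · intro a b hab
      rw [hmem₁, show ((a * b : integralClosure (MvPolynomial (Fin r) ℤ) F) : F) = (a : F) * (b : F) from rfl,
        map_mul, hvmul] at hab
      by_contra hcon
      rw [not_or, hmem₁, hmem₁, not_lt, not_lt] at hcon
      have := one_le_mul_of_one_le_of_one_le hcon.1 hcon.2
      linarith
  have hM₁P : ∀ f : MvPolynomial (Fin r) ℤ,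
      algebraMap _ (integralClosure (MvPolynomial (Fin r) ℤ) F) f ∈ M₁ ↔ (p : ℤ) ∣ eval x f := by
    intro f
    obtain ⟨y, hy⟩ := hσ₁ f
    rw [hmem₁]
    rw [show ((algebraMap _ (integralClosure (MvPolynomial (Fin r) ℤ) F) f : integralClosure (MvPolynomial (Fin r) ℤ) F) : F) =
      algebraMap _ F f from rfl, hy, hvZp, ← PadicInt.norm_int_lt_one_iff_dvd]
    have hpy : ‖(p : ℤ_[p]) * y‖ < 1 := by
      rw [norm_mul]
      calc ‖(p : ℤ_[p])‖ * ‖y‖ ≤ ‖(p : ℤ_[p])‖ * 1 :=
            mul_le_mul_of_nonneg_left (PadicInt.norm_le_one y) (norm_nonneg _)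
        _ < 1 := by
            rw [mul_one]
            exact PadicInt.mem_nonunits.1 PadicInt.p_nonunit
    constructor
    · intro h
      have h2 : ((eval x f : ℤ) : ℤ_[p]) = (((eval x f : ℤ) : ℤ_[p]) + p * y) - p * y := by ring
      have h3 : ‖((eval x f : ℤ) : ℤ_[p])‖ < 1 := by
        rw [h2, sub_eq_add_neg]
        exact lt_of_le_of_lt (PadicInt.nonarchimedean _ _) (max_lt h (by rwa [norm_neg]))
      exact h3
    · intro h
      have h3 : ‖((eval x f : ℤ) : ℤ_[p])‖ < 1 := h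
      exact lt_of_le_of_lt (PadicInt.nonarchimedean _ _) (max_lt h3 hpy)
  -- conjugation
  obtain ⟨g, hg⟩ := exists_conj (P := MvPolynomial (Fin r) ℤ) (F := F)
    (E := FractionRing (MvPolynomial (Fin r) ℤ)) M M₁ (by
      ext f
      rw [Ideal.mem_comap, Ideal.mem_comap, hMP, hM₁P])
  have hgint : ∀ z : F, IsIntegral (MvPolynomial (Fin r) ℤ) z → IsIntegral (MvPolynomial (Fin r) ℤ) (g z) := by
    intro z hz
    exact hz.map (g.toAlgHom.restrictScalars (MvPolynomial (Fin r) ℤ))
  have hvn : v ((n₀ : ℤ) : AlgebraicClosure ℚ_[p]) = 1 := by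
    have h1 : (((n₀ : ℤ) : AlgebraicClosure ℚ_[p])) = algebraMap ℤ_[p] _ ((n₀ : ℤ) : ℤ_[p]) := by
      rw [map_intCast]
    rw [h1, hvZp]
    refine le_antisymm (PadicInt.norm_le_one _) (not_lt.1 fun h => hpn ?_)
    exact (PadicInt.norm_int_lt_one_iff_dvd n₀).1 h
  have hvpow : ∀ k : ℕ, v (((n₀ : ℤ) : AlgebraicClosure ℚ_[p]) ^ k) = 1 := by
    intro k
    induction k with
    | zero => rw [pow_zero, hv1]
    | succ k ih => rw [pow_succ, hvmul, ih, hvn, one_mul]
  refine ⟨p, hp, σ₁.comp (g : F →+* F), hp3, ?_, ?_⟩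
  · intro w hw
    have h1 := hgint _ (hint w (Finset.mem_union_left _ hw))
    have h2 := hσint _ h1
    rw [map_mul, map_intCast, map_mul, map_intCast, hvmul, hvn, one_mul] at h2
    exact (hvint _).1 h2
  · intro u hu w hw huw
    obtain ⟨k, hk⟩ := closure_pow (P := MvPolynomial (Fin r) ℤ) n₀
      ((fun b : Bint r F => (b : F)) '' (A : Set (Bint r F))) (by
        rintro _ ⟨b, hb, rfl⟩
        exact hint b (Finset.mem_union_left _ hb)) (u := (u : F)) (by
        have h0 : (Bint r F).subtype u ∈ (Subring.closure (A : Set (Bint r F))).map (Bint r F).subtype :=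
          Subring.mem_map.2 ⟨u, hu, rfl⟩
        rw [RingHom.map_closure] at h0
        exact h0)
    -- lift of w
    have hw' : ∃ w' ∈ Subring.closure (S : Set (Bint r F)), φ w' = w := by
      have h1 : Subring.closure ((D : Set L) ∪ φ '' (A : Set (Bint r F))) ≤
          (Subring.closure (S : Set (Bint r F))).map φ := by
        rw [Subring.closure_le]
        rintro z (hz | ⟨a, ha, rfl⟩)
        · refine ⟨lift z, Subring.subset_closure ?_, hlift z⟩
          exact Finset.mem_coe.2 (Finset.mem_union_right _ (Finset.mem_image_of_mem _ hz))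
        · exact ⟨a, Subring.subset_closure (Finset.mem_coe.2 (Finset.mem_union_left _ ha)), rfl⟩
      obtain ⟨w', hw', h⟩ := h1 hw
      exact ⟨w', hw', h⟩
    obtain ⟨w', hw'S, hw'⟩ := hw'
    obtain ⟨l, hl⟩ := closure_pow (P := MvPolynomial (Fin r) ℤ) n₀
      ((fun b : Bint r F => (b : F)) '' (S : Set (Bint r F))) (by
        rintro _ ⟨b, hb, rfl⟩
        exact hint b hb) (u := (w' : F)) (by
        have h0 : (Bint r F).subtype w' ∈ (Subring.closure (S : Set (Bint r F))).map (Bint r F).subtype :=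
          Subring.mem_map.2 ⟨w', hw'S, rfl⟩
        rw [RingHom.map_closure] at h0
        exact h0)
    set a : integralClosure (MvPolynomial (Fin r) ℤ) F := ⟨(n₀ : F) ^ k * u, hk⟩ with ha
    set b : integralClosure (MvPolynomial (Fin r) ℤ) F := ⟨(n₀ : F) ^ l * w', hl⟩ with hb
    have hφa : φ₁ a = (n₀ : L) ^ k * φ u := by
      have h1 : ι a = ((n₀ : ℤ) : Bint r F) ^ k * u := by
        apply Subtype.ext
        show (n₀ : F) ^ k * (u : F) = _
        push_cast
        rfl
      show φ (ι a) = _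
      rw [h1, map_mul, map_pow, map_intCast]
    have hφb : φ₁ b = (n₀ : L) ^ l * φ w' := by
      have h1 : ι b = ((n₀ : ℤ) : Bint r F) ^ l * w' := by
        apply Subtype.ext
        show (n₀ : F) ^ l * (w' : F) = _
        push_cast
        rfl
      show φ (ι b) = _
      rw [h1, map_mul, map_pow, map_intCast]
    have hker : a * b - ((n₀ : ℤ) : integralClosure (MvPolynomial (Fin r) ℤ) F) ^ (k + l) ∈ M := by
      apply hMker
      rw [map_sub, map_mul, hφa, hφb, hw', map_pow, map_intCast, pow_add]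
      calc (n₀ : L) ^ k * φ u * ((n₀ : L) ^ l * w) - (n₀ : L) ^ k * (n₀ : L) ^ l
          = (n₀ : L) ^ k * (n₀ : L) ^ l * (φ u * w - 1) := by ring
        _ = 0 := by rw [huw, sub_self, mul_zero]
    have hnM : ((n₀ : ℤ) : integralClosure (MvPolynomial (Fin r) ℤ) F) ∉ M := fun h => hpn ((hMint _).1 h)
    have haM : a ∉ M := by
      intro h
      have h1 : ((n₀ : ℤ) : integralClosure (MvPolynomial (Fin r) ℤ) F) ^ (k + l) ∈ M := by
        have := M.sub_mem (M.mul_mem_right b h) hker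
        rwa [sub_sub_cancel] at this
      exact hnM (Ideal.IsPrime.mem_of_pow_mem inferInstance _ h1)
    have hga : IsIntegral (MvPolynomial (Fin r) ℤ) (g (a : F)) := hgint _ a.2
    have h1 : ¬ v (σ₁ (g (a : F))) < 1 := by
      intro h
      exact haM ((hg a ⟨g (a : F), hga⟩ rfl).1 h)
    have h2 : v (σ₁ (g (a : F))) = 1 := le_antisymm (hσint _ hga) (not_lt.1 h1)
    have h3 : σ₁ (g (a : F)) = ((n₀ : ℤ) : AlgebraicClosure ℚ_[p]) ^ k * σ₁ (g (u : F)) := by
      show σ₁ (g ((n₀ : F) ^ k * (u : F))) = _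
      rw [map_mul, map_pow, map_intCast, map_mul, map_pow, map_intCast]
    rw [h3, hvmul, hvpow, one_mul] at h2
    have hne : σ₁ (g (u : F)) ≠ 0 := by
      intro h
      rw [h, hv0] at h2
      exact zero_ne_one h2
    have h4 : v (σ₁ (g (u : F)))⁻¹ = 1 := by
      have h5 := hvmul (σ₁ (g (u : F))) (σ₁ (g (u : F)))⁻¹
      rw [mul_inv_cancel₀ hne, hv1, h2, one_mul] at h5
      exact h5.symm
    exact (hvint _).1 (le_of_eq h4)

end Pool.Agent.Helper26.DMX
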