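import Pool.Agent.Helper26.DMX.BC
import Pool.Agent.Helper26.DMX.EE
import Pool.Agent.Helper26.DMX.TOW
import Pool.Agent.Helper26.DMX.SP2

/-! Final assembly of the DMX project (helper26): dynamical Mordell-Lang for all complex points. -/

set_option autoImplicit false

namespace Pool.Agent.Helper26.DMX

open MvPolynomial Pool.Agent.Helper26.DMC

/-- along an orbit which is not dense the Jacobian is invertible -/
lemma exists_inverse {K : Type*} [Field K] {N : ℕ} {Φ : Fin N → MvPolynomial (Fin N) K}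
    (hCC : CC Φ) {α : Fin N → K} (hα : ¬ Dense Φ α) :
    ∃ A : MvPolynomial (Fin N) K, ∀ n,
      eval ((pmap Φ)^[n] α) A * eval ((pmap Φ)^[n] α) (jac Φ) = 1 := by
  let I : Ideal (MvPolynomial (Fin N) K) :=
    { carrier := {F | ∀ n, eval ((pmap Φ)^[n] α) F = 0}
      add_mem' := fun {F G} hF hG n => by rw [map_add, hF n, hG n, add_zero]
      zero_mem' := fun n => map_zero _
      smul_mem' := fun c F hF n => by rw [smul_eq_mul, map_mul, hF n, mul_zero] }
  have hI : ∀ F, F ∈ I ↔ ∀ n, eval ((pmap Φ)^[n] α) F = 0 := fun F => Iff.rfl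
  have hI0 : I ≠ ⊥ := by
    unfold DMC.Dense at hα
    push Not at hα
    obtain ⟨P, hP, hP'⟩ := hα
    intro hbot
    apply hP
    have : P ∈ I := (hI P).mpr hP'
    rwa [hbot, Ideal.mem_bot] at this
  have hev : ∀ (F : MvPolynomial (Fin N) K) (x : Fin N → K), eval x (bind₁ Φ F) = eval (pmap Φ x) F := by
    intro F x
    have := eval_bind_iter Φ 1 x F
    have e1 : iter Φ 1 = Φ := by
      funext i
      simp only [iter]
      rw [bind₁_X_left]; rfl
    rw [e1] at this
    exact this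
  have hItop := crit_of_contr hCC.1 (fun h h1 h2 => by
    obtain ⟨m, β, _, hc, hβ⟩ := hCC.2 h h1 h2
    exact ⟨m, β, hc, hβ⟩) I hI0 (fun F hF => (hI _).mpr fun n => by
    rw [hev, ← Function.iterate_succ_apply' (pmap Φ)]
    exact (hI F).mp hF (n + 1))
  rw [Ideal.eq_top_iff_one, Submodule.mem_sup] at hItop
  obtain ⟨F, hF, G, hG, hFG⟩ := hItop
  rw [Ideal.mem_span_singleton'] at hG
  obtain ⟨A, rfl⟩ := hG
  refine ⟨A, fun n => ?_⟩
  have h1 := congrArg (eval ((pmap Φ)^[n] α)) hFG
  rwa [map_add, (hI F).mp hF n, zero_add, map_mul, map_one] at h1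

lemma eval_mem {R κ : Type*} [CommRing R] (S : Subring R) (F : MvPolynomial κ R) (x : κ → R)
    (hF : ∀ d, F.coeff d ∈ S) (hx : ∀ i, x i ∈ S) : eval x F ∈ S := by
  rw [eval_eq]
  apply sum_mem
  intro d _
  apply mul_mem (hF d)
  apply prod_mem
  intro i _
  exact pow_mem (hx i) _

section datum

variable {K : Type*} [Field K] {σ₀ : K →+* ℂ} {N : ℕ} {Φ : Fin N → MvPolynomial (Fin N) K}
  {α : Fin N → ℂ} {B : Type*} [CommRing B] {L : Type*} [Field L] {j : B →+* ℂ} {φ : B →+* L}
  {τB : K →+* B} {αB : Fin N → B}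

/-- the orbit in the ring `B`, its images in `ℂ` and in `L` -/
lemma exists_lift_orbit (hτ : ∀ k, j (τB k) = σ₀ k) (hα : ∀ i, j (αB i) = α i) (n : ℕ) :
    ∃ y : Fin N → B, (fun i => j (y i)) = (pmap fun i => map σ₀ (Φ i))^[n] α ∧
      (fun i => φ (y i)) = (pmap fun i => map (φ.comp τB) (Φ i))^[n] (fun i => φ (αB i)) ∧
      ∀ S : Subring B, (∀ i, αB i ∈ S) → (∀ i d, τB ((Φ i).coeff d) ∈ S) → ∀ i, y i ∈ S := by
  induction n with
  | zero => exact ⟨αB, funext hα, rfl, fun S h _ => h⟩
  | succ n ih =>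
    obtain ⟨y, h1, h2, h3⟩ := ih
    refine ⟨fun i => eval y (map τB (Φ i)), ?_, ?_, ?_⟩
    · rw [Function.iterate_succ_apply', ← h1]
      funext i
      simp only [pmap]
      rw [ET.map_eval', map_map]
      have e1 : j.comp τB = σ₀ := RingHom.ext hτ
      rw [e1]
      rfl
    · rw [Function.iterate_succ_apply', ← h2]
      funext i
      simp only [pmap]
      rw [ET.map_eval', map_map]
      rfl
    · intro S hS1 hS2 i
      apply eval_mem S _ _ _ (h3 S hS1 hS2)
      intro d
      rw [coeff_map]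
      exact hS2 i d

end datum

section main

variable {K : Type*} [Field K] {σ₀ : K →+* ℂ} {N : ℕ} {Φ : Fin N → MvPolynomial (Fin N) K}
  {α : Fin N → ℂ}
  {r : ℕ} {F : Type} [Field F] [CharZero F] [Algebra (MvPolynomial (Fin r) ℤ) F]
  [Algebra (FractionRing (MvPolynomial (Fin r) ℤ)) F]
  [IsScalarTower (MvPolynomial (Fin r) ℤ) (FractionRing (MvPolynomial (Fin r) ℤ)) F]
  [FiniteDimensional (FractionRing (MvPolynomial (Fin r) ℤ)) F]
  [IsGalois (FractionRing (MvPolynomial (Fin r) ℤ)) F]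

/-- Case I: the specialised orbit is not dense -/
lemma case_nondense (hCC : CC Φ) (j : F →+* ℂ) {L : Type} [Field L] [CharZero L] (x : Fin r → ℤ)
    (φ : Bint r F →+* L) (hsurj : Function.Surjective φ)
    (hφ : ∀ f : MvPolynomial (Fin r) ℤ, φ ⟨algebraMap _ F f, algebraMap_mem_Bint f⟩ =
        ((eval x f : ℤ) : L)) (τB : K →+* Bint r F) (hτ : ∀ k, j (τB k : F) = σ₀ k)
    (αB : Fin N → Bint r F) (hα : ∀ i, j (αB i : F) = α i)
    (hnd : ¬ Dense (fun i => map (φ.comp τB) (Φ i)) (fun i => φ (αB i))) :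
    ∃ L : ℕ, 0 < L ∧ ∀ V : Set (MvPolynomial (Fin N) ℂ), ∃ E A : Finset ℕ,
      {n | ∀ G ∈ V, eval ((pmap fun i => map σ₀ (Φ i))^[n] α) G = 0} =
        {n : ℕ | n ∈ E ∨ ∃ a ∈ A, ∃ k : ℕ, n = a + L * k} := by
  classical
  obtain ⟨A', hA'⟩ := exists_inverse (hCC.map (φ.comp τB)) hnd
  -- the finite sets
  let A : Finset (Bint r F) := Finset.univ.image αB ∪
    (Finset.univ.biUnion fun i => (map τB (Φ i)).coeffs) ∪ (map τB (jac Φ)).coeffs
  have hAα : ∀ i, αB i ∈ A := fun i => Finset.mem_union_left _ (Finset.mem_union_left _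
    (Finset.mem_image_of_mem _ (Finset.mem_univ i)))
  have hcoe : ∀ (G : MvPolynomial (Fin N) (Bint r F)), G.coeffs ⊆ A →
      ∀ d, G.coeff d ∈ Subring.closure (A : Set (Bint r F)) := by
    intro G hG d
    by_cases h0 : G.coeff d = 0
    · rw [h0]; exact zero_mem _
    · exact Subring.subset_closure (hG (coeff_mem_coeffs d h0))
  have hAΦ : ∀ i d, τB ((Φ i).coeff d) ∈ Subring.closure (A : Set (Bint r F)) := by
    intro i d
    rw [← coeff_map]
    apply hcoe
    intro z hz
    exact Finset.mem_union_left _ (Finset.mem_union_right _ (Finset.mem_biUnion.mpr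
      ⟨i, Finset.mem_univ i, hz⟩))
  have hAJ : ∀ d, (map τB (jac Φ)).coeff d ∈ Subring.closure (A : Set (Bint r F)) := by
    apply hcoe
    intro z hz
    exact Finset.mem_union_right _ hz
  obtain ⟨p, hp, σ, hp3, hint, hinv⟩ := exists_near x φ hsurj hφ A A'.coeffs
  -- the units
  let jB : Bint r F →+* ℂ := j.comp (Bint r F).subtype
  have hunit : ∀ n, ∃ u : Bint r F, j (u : F) =
      eval ((pmap fun i => map σ₀ (Φ i))^[n] α) (jac fun i => map σ₀ (Φ i)) ∧
      u ≠ 0 ∧ IsIntegral ℤ_[p] (σ (u : F))⁻¹ := by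
    intro n
    obtain ⟨y, h1, h2, h3⟩ := exists_lift_orbit (σ₀ := σ₀) (Φ := Φ) (α := α) (j := jB) (φ := φ)
      (τB := τB) (αB := αB) hτ hα n
    have hyS := h3 (Subring.closure (A : Set (Bint r F)))
      (fun i => Subring.subset_closure (hAα i)) hAΦ
    set u : Bint r F := eval y (map τB (jac Φ)) with hu
    have hju : jB u = eval ((pmap fun i => map σ₀ (Φ i))^[n] α) (jac fun i => map σ₀ (Φ i)) := by
      rw [hu, ET.map_eval', map_map, jac_map, ← h1]
      have e1 : jB.comp τB = σ₀ := RingHom.ext hτ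
      rw [e1]
      rfl
    have hφu : φ u = eval ((pmap fun i => map (φ.comp τB) (Φ i))^[n] (fun i => φ (αB i)))
        (jac fun i => map (φ.comp τB) (Φ i)) := by
      rw [hu, ET.map_eval', map_map, jac_map, ← h2]
      rfl
    have hmul : φ u * eval ((pmap fun i => map (φ.comp τB) (Φ i))^[n] (fun i => φ (αB i))) A' = 1 := by
      rw [hφu, mul_comm]
      exact hA' n
    refine ⟨u, hju, ?_, ?_⟩
    · rintro h0
      rw [h0, map_zero, zero_mul] at hmul
      exact zero_ne_one hmul
    · apply hinv u (eval_mem _ _ _ hAJ hyS) _ _ hmul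
      rw [← h2]
      apply eval_mem
      · intro d
        by_cases h0 : A'.coeff d = 0
        · rw [h0]; exact zero_mem _
        · exact Subring.subset_closure (Or.inl (coeff_mem_coeffs d h0))
      · intro i
        have h4 : ∀ z ∈ Subring.closure (A : Set (Bint r F)),
            φ z ∈ Subring.closure ((A'.coeffs : Set L) ∪ φ '' (A : Set (Bint r F))) := by
          intro z hz
          have h5 : Subring.closure (A : Set (Bint r F)) ≤
              (Subring.closure ((A'.coeffs : Set L) ∪ φ '' (A : Set (Bint r F)))).comap φ := by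
            rw [Subring.closure_le]
            intro z hz
            exact Subring.subset_closure (Or.inr ⟨z, hz, rfl⟩)
          exact h5 hz
        exact h4 _ (hyS i)
  -- apply the etale theorem
  let e : F ≃+* j.range := RingEquiv.ofBijective j.rangeRestrict
    ⟨fun a b hab => j.injective (congrArg Subtype.val hab), j.rangeRestrict_surjective⟩
  have he : ∀ w : F, ((e w : j.range) : ℂ) = j w := fun w => rfl
  let A₀ : Finset ℂ := A.image (fun w : Bint r F => j (w : F))
  have hcl : ∀ w ∈ Subring.closure (A : Set (Bint r F)),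
      j (w : F) ∈ Subring.closure (A₀ : Set ℂ) := by
    intro w hw
    have h5 : Subring.closure (A : Set (Bint r F)) ≤
        (Subring.closure (A₀ : Set ℂ)).comap jB := by
      rw [Subring.closure_le]
      intro z hz
      refine Subring.subset_closure ?_
      rw [Finset.mem_coe, Finset.mem_image]
      exact ⟨z, hz, rfl⟩
    exact h5 hw
  refine etale_emb (fun i => map σ₀ (Φ i)) α A₀ ?_ ?_ p hp3 j.range ?_
    (σ.comp (e.symm : j.range →+* F)) ?_ ?_ ?_
  · intro i d
    rw [coeff_map, ← hτ]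
    exact hcl _ (hAΦ i d)
  · intro i
    rw [← hα]
    exact hcl _ (Subring.subset_closure (hAα i))
  · intro z hz
    obtain ⟨w, _, rfl⟩ := Finset.mem_image.mp hz
    exact ⟨w, rfl⟩
  · exact σ.injective.comp e.symm.injective
  · intro z hz
    obtain ⟨w, hw, hwz⟩ := Finset.mem_image.mp hz
    have e1 : z = e (w : F) := Subtype.ext hwz.symm
    rw [e1]
    have e2 : (σ.comp (e.symm : j.range →+* F)) (e (w : F)) = σ (w : F) := by
      simp
    rw [e2]
    exact hint w hw
  · intro n u hu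
    obtain ⟨w, hw1, hw2, hw3⟩ := hunit n
    have e1 : u = e (w : F) := Subtype.ext (hu.trans hw1.symm)
    have e2 : (σ.comp (e.symm : j.range →+* F)) (e (w : F)) = σ (w : F) := by
      simp
    rw [e1, e2]
    refine ⟨?_, hw3⟩
    intro h0
    apply hw2
    have h1 : (w : F) = 0 := by
      have := e.injective (h0.trans (map_zero e).symm)
      exact this
    exact Subtype.ext h1

omit [CharZero F] [Algebra (FractionRing (MvPolynomial (Fin r) ℤ)) F]
  [IsScalarTower (MvPolynomial (Fin r) ℤ) (FractionRing (MvPolynomial (Fin r) ℤ)) F]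
  [FiniteDimensional (FractionRing (MvPolynomial (Fin r) ℤ)) F]
  [IsGalois (FractionRing (MvPolynomial (Fin r) ℤ)) F] in
/-- Case II: the specialised orbit is dense -/
lemma case_dense (j : F →+* ℂ) {L : Type} [Field L] [NumberField L]
    (φ : Bint r F →+* L) (τB : K →+* Bint r F) (hτ : ∀ k, j (τB k : F) = σ₀ k)
    (αB : Fin N → Bint r F) (hα : ∀ i, j (αB i : F) = α i)
    (hd : Dense (fun i => map (φ.comp τB) (Φ i)) (fun i => φ (αB i)))
    {h : MvPolynomial (Fin N) K} (hh : ∀ c, h ≠ C c) {m : ℕ} (hm : 0 < m) {β : Fin N → K}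
    (hc : Contr Φ h m β) (hβ : Dense Φ β) (G : MvPolynomial (Fin N) (Bint r F)) (d : Fin N →₀ ℕ)
    (hG : φ (G.coeff d) ≠ 0) :
    {n | eval ((pmap fun i => map σ₀ (Φ i))^[n] α)
      (map (j.comp (Bint r F).subtype) G) = 0}.Finite := by
  let jB : Bint r F →+* ℂ := j.comp (Bint r F).subtype
  have hhL : ∀ c, map (φ.comp τB) h ≠ C c := by
    intro c hc'
    apply hh (h.coeff 0)
    ext e
    by_cases he : e = 0
    · rw [he, coeff_C, if_pos rfl]
    · rw [coeff_C, if_neg (Ne.symm he)]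
      have h1 := congrArg (coeff e) hc'
      rw [coeff_map, coeff_C, if_neg (Ne.symm he)] at h1
      exact (map_eq_zero (φ.comp τB)).mp h1
  have hP : map φ G ≠ 0 := by
    intro h0
    apply hG
    rw [← coeff_map, h0, coeff_zero]
  have hfin := finite_of_dense hhL hm (contr_map (φ.comp τB) hc) (dense_map (φ.comp τB) hβ) hd hP
  refine hfin.subset ?_
  intro n hn
  obtain ⟨y, h1, h2, _⟩ := exists_lift_orbit (σ₀ := σ₀) (Φ := Φ) (α := α) (j := jB) (φ := φ)
    (τB := τB) (αB := αB) hτ hα n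
  rw [Set.mem_ofPred_eq] at hn ⊢
  rw [← h1] at hn
  rw [← h2]
  have e1 : eval (fun i => jB (y i)) (map jB G) = jB (eval y G) := (ET.map_eval' jB y G).symm
  have e2 : eval (fun i => φ (y i)) (map φ G) = φ (eval y G) := (ET.map_eval' φ y G).symm
  have e3 : jB (eval y G) = 0 := by rw [← e1]; exact hn
  have e4 : eval y G = 0 := by
    apply Subtype.ext
    exact j.injective (e3.trans (map_zero j).symm)
  rw [e2, e4, map_zero]

end main

section final

variable {K : Type*} [Field K] [NumberField K] (σ₀ : K →+* ℂ) {N : ℕ}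

/-- the fields and homomorphisms for a finite set of complex numbers -/
lemma exists_data (α : Fin N → ℂ) (A₁ : Finset ℂ) :
    ∃ (r : ℕ) (F : Type) (_ : Field F) (_ : CharZero F) (_ : Algebra (MvPolynomial (Fin r) ℤ) F)
      (_ : Algebra (FractionRing (MvPolynomial (Fin r) ℤ)) F)
      (_ : IsScalarTower (MvPolynomial (Fin r) ℤ) (FractionRing (MvPolynomial (Fin r) ℤ)) F)
      (_ : FiniteDimensional (FractionRing (MvPolynomial (Fin r) ℤ)) F)
      (_ : IsGalois (FractionRing (MvPolynomial (Fin r) ℤ)) F) (j : F →+* ℂ)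
      (τB : K →+* Bint r F) (αB : Fin N → Bint r F),
      (∀ k, j (τB k : F) = σ₀ k) ∧ (∀ i, j (αB i : F) = α i) ∧
      ∀ z ∈ A₁, ∃ w : Bint r F, j (w : F) = z := by
  classical
  let b := Module.finBasis ℚ K
  let A : Finset ℂ := A₁ ∪ Finset.univ.image α ∪ Finset.univ.image (fun i => σ₀ (b i))
  obtain ⟨r, F, iF, iC, iA, iA', iT, iD, iG, j, hj⟩ := exists_tower A
  let S : Subring ℂ := (Bint r F).map j
  have hAS : ∀ z ∈ A, z ∈ S := by
    intro z hz
    obtain ⟨w, hw, hw'⟩ := hj z hz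
    exact ⟨w, hw', hw⟩
  have hQ : ∀ q : ℚ, (q : ℂ) ∈ S := by
    intro q
    refine ⟨(q : F), ⟨q.den, by exact_mod_cast q.den_nz, ?_⟩, map_ratCast j q⟩
    have h1 : ((q.den : ℤ) : F) * (q : F) = algebraMap (MvPolynomial (Fin r) ℤ) F (q.num : ℤ) := by
      rw [map_intCast]
      have h2 := Rat.den_mul_eq_num q
      have h3 := congrArg (fun t : ℚ => (t : F)) h2
      push_cast at h3 ⊢
      exact h3
    rw [h1]
    exact isIntegral_algebraMap
  have hKS : ∀ k, σ₀ k ∈ S := by
    intro k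
    rw [← b.sum_repr k, map_sum]
    apply sum_mem
    intro i _
    rw [Algebra.smul_def, map_mul]
    apply mul_mem
    · have h1 : σ₀ (algebraMap ℚ K (b.repr k i)) = ((b.repr k i : ℚ) : ℂ) := by
        rw [eq_ratCast (algebraMap ℚ K), map_ratCast]
      rw [h1]
      exact hQ _
    · exact hAS _ (Finset.mem_union_right _ (Finset.mem_image_of_mem _ (Finset.mem_univ i)))
  let e := (Bint r F).equivMapOfInjective j j.injective
  have he : ∀ w : Bint r F, ((e w : S) : ℂ) = j (w : F) := fun w => rfl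
  have he' : ∀ z : S, j ((e.symm z : Bint r F) : F) = (z : ℂ) := by
    intro z
    rw [← he, e.apply_symm_apply]
  refine ⟨r, F, iF, iC, iA, iA', iT, iD, iG, j,
    (e.symm : S →+* Bint r F).comp (σ₀.codRestrict S hKS),
    fun i => e.symm ⟨α i, hAS _ (Finset.mem_union_left _ (Finset.mem_union_right _
      (Finset.mem_image_of_mem _ (Finset.mem_univ i))))⟩, ?_, ?_, ?_⟩
  · intro k
    exact he' _
  · intro i
    exact he' _
  · intro z hz
    exact ⟨e.symm ⟨z, hAS z (Finset.mem_union_left _ (Finset.mem_union_left _ hz))⟩, he' _⟩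

/-- **main theorem**: dynamical Mordell-Lang for all complex points -/
theorem full_complex {Φ : Fin N → MvPolynomial (Fin N) K} (hCC : CC Φ) (α : Fin N → ℂ) :
    ∃ L : ℕ, 0 < L ∧ ∀ V : Set (MvPolynomial (Fin N) ℂ), ∃ E A : Finset ℕ,
      {n | ∀ G ∈ V, eval ((pmap fun i => map σ₀ (Φ i))^[n] α) G = 0} =
        {n : ℕ | n ∈ E ∨ ∃ a ∈ A, ∃ k : ℕ, n = a + L * k} := by
  classical
  by_cases hunit : IsUnit (jac Φ)
  · obtain ⟨A, hA⟩ := hunit.exists_left_inv
    exact etale (fun i => map σ₀ (Φ i)) α (map σ₀ A) (by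
      intro n
      rw [jac_map, ← map_mul, ← map_mul, hA, map_one, map_one])
  obtain ⟨h, hirr, hdvd⟩ := WfDvdMonoid.exists_irreducible_factor hunit hCC.1
  obtain ⟨m, β, hm, hc, hβ⟩ := hCC.2 h hirr hdvd
  have hh : ∀ c, h ≠ C c := by
    rintro c rfl
    by_cases hc0 : c = 0
    · exact hirr.ne_zero (by rw [hc0, map_zero])
    · exact hirr.not_isUnit ((IsUnit.mk0 _ hc0).map C)
  by_contra hcon
  apply hcon
  refine ⟨1, one_pos, fun V => ?_⟩
  by_cases hV : ∀ G ∈ V, G = 0
  · refine ⟨∅, {0}, ?_⟩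
    ext n
    constructor
    · intro _
      exact Or.inr ⟨0, Finset.mem_singleton_self 0, n, by ring⟩
    · intro _ G hG
      rw [hV G hG, map_zero]
  · push Not at hV
    obtain ⟨G, hGV, hG⟩ := hV
    obtain ⟨d, hd⟩ := ne_zero_iff.mp hG
    obtain ⟨r, F, _, _, _, _, _, _, _, j, τB, αB, hτ, hα, hA⟩ := exists_data σ₀ α G.coeffs
    have hlift : ∃ G' : MvPolynomial (Fin N) (Bint r F), map (j.comp (Bint r F).subtype) G' = G := by
      have h1 : G ∈ Set.range (map (j.comp (Bint r F).subtype)) := by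
        rw [mem_range_map_iff_coeffs_subset]
        intro z hz
        obtain ⟨w, hw⟩ := hA z (by exact_mod_cast hz)
        exact ⟨w, hw⟩
      exact h1
    obtain ⟨G', hG'⟩ := hlift
    have hc0 : G'.coeff d ≠ 0 := by
      intro h0
      apply hd
      rw [← hG', coeff_map, h0, map_zero]
    obtain ⟨x, L, _, _, φ, h1, h2, h3⟩ := exists_spec (G'.coeff d) hc0
    by_cases hd' : DMC.Dense (fun i => map (φ.comp τB) (Φ i)) (fun i => φ (αB i))
    · have hfin := case_dense (σ₀ := σ₀) (α := α) j φ τB hτ αB hα hd' hh hm hc hβ G' d h1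
      rw [hG'] at hfin
      have hfin2 : {n | ∀ G ∈ V, eval ((pmap fun i => map σ₀ (Φ i))^[n] α) G = 0}.Finite :=
        hfin.subset fun n hn => hn G hGV
      refine ⟨hfin2.toFinset, ∅, ?_⟩
      ext n
      simp
    · exact absurd (case_nondense hCC j x φ h2 h3 τB hτ αB hα hd') hcon

end final

end Pool.Agent.Helper26.DMX
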