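import Mathlib

/-! Block DMX-SP1 (about 200 lines): specialisation to a number field.
`P = MvPolynomial (Fin r) ℤ`.  `Bint r F` is the integral closure of `ℚ[t]` in `F`, written as a subring.
`exists_spec`: `c ∈ Bint` is nonzero; `n c` is a root of a monic polynomial over `P`; choose one of least degree (or the minimal polynomial), its constant term `c₀ ∈ P` is nonzero and
`c₀ = - (n c) * b` with `b ∈ Bint`.  Choose `x ∈ ℤ^r` with `c₀(x) ≠ 0` (`MvPolynomial.funext`).  Let `B = Bint r F`.  The kernel `𝔭` of `MvPolynomial (Fin r) ℚ → ℚ`, `t ↦ x` (or of `P → ℤ`, `t ↦ x`) is prime and `B` is integral over `ℚ[t]`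
(`MvPolynomial (Fin r) ℚ → F` is injective with image in `B`), so there is a prime `𝔔` of `B` over it (`Ideal.exists_ideal_over_prime_of_isIntegral_of_isDomain` or similar).
`B / 𝔔` is integral over `ℚ[t]/𝔭 = ℚ`, so a field `L`; finite over `ℚ`: `B` is a finite `ℚ[t]`-module (`IsIntegralClosure.finite`: `F` is finite separable over the fraction field of the Noetherian
integrally closed domain `ℚ[t]`), or: all elements of `L` have degree at most `[F : Frac P]` over `ℚ`.  `φ` = the quotient map; `φ(c) ≠ 0` because `φ(c₀) = c₀(x) ≠ 0`. -/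

set_option autoImplicit false

namespace Pool.Agent.Helper26.DMX

open MvPolynomial

section

variable (r : ℕ) (F : Type) [Field F] [CharZero F] [Algebra (MvPolynomial (Fin r) ℤ) F]

/-- The elements of `F` with a nonzero integral multiple which is integral over `ℤ[t_1, ..., t_r]`. -/
def Bint : Subring F where
  carrier := {w | ∃ n : ℤ, n ≠ 0 ∧ IsIntegral (MvPolynomial (Fin r) ℤ) ((n : F) * w)}
  mul_mem' := by
    rintro a b ⟨n, hn, hna⟩ ⟨m, hm, hmb⟩
    exact ⟨n * m, mul_ne_zero hn hm, by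
      have := hna.mul hmb
      rwa [show (n : F) * a * ((m : F) * b) = ((n * m : ℤ) : F) * (a * b) by push_cast; ring] at this⟩
  one_mem' := ⟨1, one_ne_zero, by simpa using isIntegral_one⟩
  add_mem' := by
    rintro a b ⟨n, hn, hna⟩ ⟨m, hm, hmb⟩
    refine ⟨n * m, mul_ne_zero hn hm, ?_⟩
    have hZ : ∀ k : ℤ, IsIntegral (MvPolynomial (Fin r) ℤ) (k : F) := fun k => by
      have := isIntegral_algebraMap (R := MvPolynomial (Fin r) ℤ) (A := F) (x := (k : MvPolynomial (Fin r) ℤ))
      rwa [map_intCast] at this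
    have := ((hZ m).mul hna).add ((hZ n).mul hmb)
    rwa [show (m : F) * ((n : F) * a) + (n : F) * ((m : F) * b) = ((n * m : ℤ) : F) * (a + b) by
      push_cast; ring] at this
  zero_mem' := ⟨1, one_ne_zero, by simpa using isIntegral_zero⟩
  neg_mem' := by
    rintro a ⟨n, hn, hna⟩
    exact ⟨n, hn, by rw [mul_neg]; exact hna.neg⟩

end

section

variable {r : ℕ} {F : Type} [Field F] [CharZero F] [Algebra (MvPolynomial (Fin r) ℤ) F]

theorem mem_Bint {w : F} :
    w ∈ Bint r F ↔ ∃ n : ℤ, n ≠ 0 ∧ IsIntegral (MvPolynomial (Fin r) ℤ) ((n : F) * w) := Iff.rfl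

theorem algebraMap_mem_Bint (f : MvPolynomial (Fin r) ℤ) :
    algebraMap (MvPolynomial (Fin r) ℤ) F f ∈ Bint r F :=
  ⟨1, one_ne_zero, by simpa using isIntegral_algebraMap⟩

variable [Algebra (FractionRing (MvPolynomial (Fin r) ℤ)) F]
  [IsScalarTower (MvPolynomial (Fin r) ℤ) (FractionRing (MvPolynomial (Fin r) ℤ)) F]
  [FiniteDimensional (FractionRing (MvPolynomial (Fin r) ℤ)) F]

theorem exists_spec (c : Bint r F) (hc : c ≠ 0) :
    ∃ (x : Fin r → ℤ) (L : Type) (_ : Field L) (_ : NumberField L) (φ : Bint r F →+* L),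
      φ c ≠ 0 ∧ Function.Surjective φ ∧
      ∀ f : MvPolynomial (Fin r) ℤ, φ ⟨algebraMap _ F f, algebraMap_mem_Bint f⟩ =
        ((eval x f : ℤ) : L) := by
  classical
  have hinj : Function.Injective (algebraMap (MvPolynomial (Fin r) ℤ) F) := by
    rw [IsScalarTower.algebraMap_eq (MvPolynomial (Fin r) ℤ)
      (FractionRing (MvPolynomial (Fin r) ℤ)) F, RingHom.coe_comp]
    exact (algebraMap (FractionRing (MvPolynomial (Fin r) ℤ)) F).injective.comp
      (IsFractionRing.injective _ _)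
  have hCZ : CharZero (FractionRing (MvPolynomial (Fin r) ℤ)) :=
    (RingHom.charZero_iff
      (algebraMap (FractionRing (MvPolynomial (Fin r) ℤ)) F).injective).2 inferInstance
  have hfin : Module.Finite (MvPolynomial (Fin r) ℤ) (integralClosure (MvPolynomial (Fin r) ℤ) F) :=
    IsIntegralClosure.finite (MvPolynomial (Fin r) ℤ) (FractionRing (MvPolynomial (Fin r) ℤ)) F _
  obtain ⟨S, hS⟩ := hfin.fg_top
  -- the element `c₀`
  obtain ⟨n, hn, hnc⟩ := c.2
  have hnF : (n : F) ≠ 0 := Int.cast_ne_zero.2 hn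
  have hcF : (c : F) ≠ 0 := fun h => hc (Subtype.ext h)
  have hs : (⟨(n : F) * c, hnc⟩ : integralClosure (MvPolynomial (Fin r) ℤ) F) ≠ 0 := by
    intro h
    exact mul_ne_zero hnF hcF (congrArg Subtype.val h)
  obtain ⟨c₀, hc₀, u, hu⟩ := IsAlgebraic.exists_nonzero_dvd (R := MvPolynomial (Fin r) ℤ)
    (s := (⟨(n : F) * c, hnc⟩ : integralClosure (MvPolynomial (Fin r) ℤ) F))
    (Algebra.IsIntegral.isIntegral _).isAlgebraic (mem_nonZeroDivisors_of_ne_zero hs)
  have huF : algebraMap (MvPolynomial (Fin r) ℤ) F c₀ = ((n : F) * c) * (u : F) :=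
    congrArg Subtype.val hu
  obtain ⟨x, hx⟩ : ∃ x : Fin r → ℤ, eval x c₀ ≠ 0 := by
    by_contra! h
    exact hc₀ (MvPolynomial.funext (fun x => by simpa using h x))
  have hprime : (RingHom.ker (eval x : MvPolynomial (Fin r) ℤ →+* ℤ)).IsPrime :=
    RingHom.ker_isPrime _
  obtain ⟨q, hq, hqc⟩ := Ideal.exists_ideal_over_prime_of_isIntegral_of_isDomain
    (S := integralClosure (MvPolynomial (Fin r) ℤ) F)
    (RingHom.ker (eval x : MvPolynomial (Fin r) ℤ →+* ℤ)) (by
      intro f hf
      have h0 : algebraMap (MvPolynomial (Fin r) ℤ) F f = 0 := congrArg Subtype.val hf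
      have h1 : f = 0 := hinj (by rw [h0, map_zero])
      rw [h1]
      exact Ideal.zero_mem _)
  have hqmem : ∀ f : MvPolynomial (Fin r) ℤ,
      algebraMap (MvPolynomial (Fin r) ℤ) (integralClosure (MvPolynomial (Fin r) ℤ) F) f ∈ q ↔
        eval x f = 0 := by
    intro f
    rw [← Ideal.mem_comap, hqc, RingHom.mem_ker]
  have hcoe : ∀ f : MvPolynomial (Fin r) ℤ, ((algebraMap (MvPolynomial (Fin r) ℤ)
      (integralClosure (MvPolynomial (Fin r) ℤ) F) f : integralClosure (MvPolynomial (Fin r) ℤ) F)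
        : F) = algebraMap (MvPolynomial (Fin r) ℤ) F f := fun f => rfl
  have hInt : ∀ k : ℤ, (k : F) = algebraMap (MvPolynomial (Fin r) ℤ) F (k : MvPolynomial (Fin r) ℤ) :=
    fun k => (map_intCast _ k).symm
  have hIntq : ∀ k : ℤ, ((k : integralClosure (MvPolynomial (Fin r) ℤ) F) : F) = (k : F) :=
    fun k => by push_cast; rfl
  -- the ideal over `q`
  let Q₀ : Ideal (Bint r F) :=
    { carrier := {b | ∃ m : ℤ, m ≠ 0 ∧ ∃ y ∈ q, (m : F) * (b : F) = (y : F)}
      add_mem' := by
        rintro a b ⟨m, hm, y, hy, hya⟩ ⟨m', hm', y', hy', hyb⟩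
        refine ⟨m * m', mul_ne_zero hm hm', m' * y + m * y',
          q.add_mem (q.mul_mem_left _ hy) (q.mul_mem_left _ hy'), ?_⟩
        push_cast
        rw [← hya, ← hyb]
        ring
      zero_mem' := ⟨1, one_ne_zero, 0, q.zero_mem, by simp⟩
      smul_mem' := by
        rintro a b ⟨m, hm, y, hy, hyb⟩
        obtain ⟨k, hk, hka⟩ := a.2
        refine ⟨k * m, mul_ne_zero hk hm, ⟨(k : F) * a, hka⟩ * y, q.mul_mem_left _ hy, ?_⟩
        push_cast
        rw [← hyb, smul_eq_mul]
        push_cast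
        ring }
  have hQ₀ : Q₀ ≠ ⊤ := by
    intro h
    obtain ⟨m, hm, y, hy, hym⟩ : (1 : Bint r F) ∈ Q₀ := by
      rw [h]
      exact Submodule.mem_top
    have hy' : y = algebraMap (MvPolynomial (Fin r) ℤ)
        (integralClosure (MvPolynomial (Fin r) ℤ) F) (m : MvPolynomial (Fin r) ℤ) := by
      apply Subtype.ext
      rw [← hym, hcoe, ← hInt]
      simp
    rw [hy', hqmem] at hy
    apply hm
    simpa using hy
  obtain ⟨Q, hQmax, hQle⟩ := Ideal.exists_le_maximal Q₀ hQ₀
  letI instL : Field (Bint r F ⧸ Q) := Ideal.Quotient.field Q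
  -- values of the quotient map
  have hval : ∀ f : MvPolynomial (Fin r) ℤ,
      Ideal.Quotient.mk Q ⟨algebraMap _ F f, algebraMap_mem_Bint f⟩ =
        ((eval x f : ℤ) : Bint r F ⧸ Q) := by
    intro f
    rw [← map_intCast (Ideal.Quotient.mk Q), Ideal.Quotient.eq]
    apply hQle
    refine ⟨1, one_ne_zero, algebraMap (MvPolynomial (Fin r) ℤ)
        (integralClosure (MvPolynomial (Fin r) ℤ) F)
        (f - ((eval x f : ℤ) : MvPolynomial (Fin r) ℤ)), ?_, ?_⟩
    · rw [hqmem]
      simp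
    · rw [hcoe, map_sub, ← hInt]
      push_cast
      rw [one_mul]
  have hinv : ∀ k : ℤ, k ≠ 0 → (k : Bint r F ⧸ Q) ≠ 0 := by
    intro k hk h
    have hkF : (k : F) ≠ 0 := Int.cast_ne_zero.2 hk
    have hmem : ((k : F))⁻¹ ∈ Bint r F := ⟨k, hk, by
      rw [mul_inv_cancel₀ hkF]
      exact isIntegral_one⟩
    have h1 : (k : Bint r F) * ⟨((k : F))⁻¹, hmem⟩ = 1 := by
      apply Subtype.ext
      push_cast
      exact mul_inv_cancel₀ hkF
    have h2 := congrArg (Ideal.Quotient.mk Q) h1
    rw [map_mul, map_intCast, h, zero_mul, map_one] at h2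
    exact zero_ne_one h2
  have hL0 : CharZero (Bint r F ⧸ Q) := by
    apply charZero_of_inj_zero
    intro k hk
    by_contra hne
    exact hinv (k : ℤ) (by exact_mod_cast hne) (by exact_mod_cast hk)
  have hBmem : ∀ y : integralClosure (MvPolynomial (Fin r) ℤ) F, (y : F) ∈ Bint r F := fun y =>
    ⟨1, one_ne_zero, by
      rw [Int.cast_one, one_mul]
      exact y.2⟩
  let ι : integralClosure (MvPolynomial (Fin r) ℤ) F →+* Bint r F :=
    { toFun := fun y => ⟨y, hBmem y⟩
      map_one' := rfl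
      map_mul' := fun _ _ => rfl
      map_zero' := rfl
      map_add' := fun _ _ => rfl }
  have hspan : ∀ y : integralClosure (MvPolynomial (Fin r) ℤ) F,
      Ideal.Quotient.mk Q (ι y) ∈
        Submodule.span ℚ ((fun z => Ideal.Quotient.mk Q (ι z)) '' (S : Set _)) := by
    intro y
    have hy : y ∈ Submodule.span (MvPolynomial (Fin r) ℤ)
        (S : Set (integralClosure (MvPolynomial (Fin r) ℤ) F)) := by
      rw [hS]
      exact Submodule.mem_top
    induction hy using Submodule.span_induction with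
    | mem z hz => exact Submodule.subset_span ⟨z, hz, rfl⟩
    | zero => rw [map_zero, map_zero]; exact Submodule.zero_mem _
    | add a b _ _ ha hb => rw [map_add, map_add]; exact Submodule.add_mem _ ha hb
    | smul f a _ ha =>
      have h1 : ι (f • a) = ⟨algebraMap _ F f, algebraMap_mem_Bint f⟩ * ι a := by
        apply Subtype.ext
        rw [Algebra.smul_def]
        rfl
      rw [h1, map_mul, hval]
      have h2 : ((eval x f : ℤ) : Bint r F ⧸ Q) * Ideal.Quotient.mk Q (ι a) =
          ((eval x f : ℤ) : ℚ) • Ideal.Quotient.mk Q (ι a) := by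
        rw [Algebra.smul_def, map_intCast]
      rw [h2]
      exact Submodule.smul_mem _ _ ha
  have hfd : FiniteDimensional ℚ (Bint r F ⧸ Q) := by
    refine Module.Finite.of_fg_top ?_
    refine ⟨S.image (fun z => Ideal.Quotient.mk Q (ι z)), ?_⟩
    rw [Finset.coe_image, eq_top_iff]
    rintro l -
    obtain ⟨b, rfl⟩ := Ideal.Quotient.mk_surjective l
    obtain ⟨m, hm, hmb⟩ := b.2
    have h1 : (m : Bint r F) * b = ι ⟨(m : F) * b, hmb⟩ := by
      apply Subtype.ext
      push_cast
      rfl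
    have h2 := congrArg (Ideal.Quotient.mk Q) h1
    rw [map_mul, map_intCast] at h2
    have h3 : Ideal.Quotient.mk Q b = ((m : ℚ)⁻¹) • Ideal.Quotient.mk Q (ι ⟨(m : F) * b, hmb⟩) := by
      rw [← h2, Algebra.smul_def, map_inv₀, map_intCast, ← mul_assoc,
        inv_mul_cancel₀ (hinv m hm), one_mul]
    rw [h3]
    exact Submodule.smul_mem _ _ (hspan _)
  refine ⟨x, Bint r F ⧸ Q, instL, ⟨⟩, Ideal.Quotient.mk Q, ?_, Ideal.Quotient.mk_surjective, hval⟩
  intro h
  have h1 : (⟨algebraMap _ F c₀, algebraMap_mem_Bint c₀⟩ : Bint r F) = (n : Bint r F) * c * ι u := by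
    apply Subtype.ext
    push_cast
    exact huF
  have h2 := hval c₀
  rw [h1, map_mul, map_mul, h, mul_zero, zero_mul] at h2
  exact hinv _ hx h2.symm

end

end Pool.Agent.Helper26.DMX
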